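import Mathlib

/-!
# Free continuum limit of lattice Yang-Mills: partial derivatives and cut-offs
-/

open MeasureTheory Filter
open scoped ContDiff Topology

namespace Pool.Agent.U322.FL

set_option linter.unusedSectionVars false
set_option linter.unusedVariables false

noncomputable section

/-- Euclidean space -/
abbrev Eu (d : ℕ) := EuclideanSpace ℝ (Fin d)

variable {d : ℕ}

/-- unit vector -/
def e1 (i : Fin d) : Eu d := EuclideanSpace.single i 1

/-- partial derivative -/
def pd (i : Fin d) (g : Eu d → ℝ) : Eu d → ℝ := fun x => fderiv ℝ g x (e1 i)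

/-- smooth functions -/
abbrev Smo (g : Eu d → ℝ) : Prop := ContDiff ℝ ∞ g

lemma Smo.pd {g : Eu d → ℝ} (hg : Smo g) (i : Fin d) : Smo (pd i g) :=
  (hg.fderiv_right (m := ∞) (by simp)).clm_apply contDiff_const

lemma Smo.diff {g : Eu d → ℝ} (hg : Smo g) (x : Eu d) : DifferentiableAt ℝ g x :=
  (hg.differentiable (by simp)).differentiableAt

lemma HasCompactSupport.pd {g : Eu d → ℝ} (hg : HasCompactSupport g) (i : Fin d) :
    HasCompactSupport (pd i g) :=
  hg.fderiv_apply (𝕜 := ℝ) (v := e1 i)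

lemma pd_add {f g : Eu d → ℝ} (hf : Smo f) (hg : Smo g) (i : Fin d) :
    pd i (fun x => f x + g x) = fun x => pd i f x + pd i g x := by
  funext x
  unfold pd
  rw [fderiv_fun_add (hf.diff x) (hg.diff x)]
  rfl

lemma pd_neg {f : Eu d → ℝ} (i : Fin d) :
    pd i (fun x => -f x) = fun x => -pd i f x := by
  funext x
  unfold pd
  rw [fderiv_fun_neg]
  rfl

lemma pd_sub {f g : Eu d → ℝ} (hf : Smo f) (hg : Smo g) (i : Fin d) :
    pd i (fun x => f x - g x) = fun x => pd i f x - pd i g x := by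
  funext x
  unfold pd
  rw [fderiv_fun_sub (hf.diff x) (hg.diff x)]
  rfl

lemma pd_mul {f g : Eu d → ℝ} (hf : Smo f) (hg : Smo g) (i : Fin d) :
    pd i (fun x => f x * g x) = fun x => f x * pd i g x + pd i f x * g x := by
  funext x
  unfold pd
  rw [fderiv_fun_mul (hf.diff x) (hg.diff x)]
  simp only [add_apply, smul_apply, smul_eq_mul]
  ring

lemma pd_sum {ι : Type*} (s : Finset ι) {f : ι → Eu d → ℝ} (hf : ∀ k, Smo (f k)) (i : Fin d) :
    pd i (fun x => ∑ k ∈ s, f k x) = fun x => ∑ k ∈ s, pd i (f k) x := by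
  funext x
  unfold pd
  rw [fderiv_fun_sum fun k _ => (hf k).diff x]
  simp

lemma pd_zero (i : Fin d) : pd i (fun _ => (0 : ℝ)) = fun _ => 0 := by
  funext x
  unfold pd
  simp

lemma pd_const_mul {f : Eu d → ℝ} (hf : Smo f) (c : ℝ) (i : Fin d) :
    pd i (fun x => c * f x) = fun x => c * pd i f x := by
  funext x
  unfold pd
  rw [fderiv_const_mul (hf.diff x)]
  rfl

lemma pd_comm {g : Eu d → ℝ} (hg : Smo g) (i j : Fin d) : pd i (pd j g) = pd j (pd i g) := by
  funext x
  unfold pd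
  have h1 : ∀ v : Eu d, ∀ w : Eu d,
      fderiv ℝ (fun y => fderiv ℝ g y v) x w = fderiv ℝ (fderiv ℝ g) x w v := by
    intro v w
    have hd : DifferentiableAt ℝ (fderiv ℝ g) x :=
      ((hg.fderiv_right (m := ∞) (by simp)).differentiable (by simp)).differentiableAt
    rw [fderiv_clm_apply hd (differentiableAt_const v)]
    simp
  rw [h1, h1]
  have hs : IsSymmSndFDerivAt ℝ g x := by
    apply ContDiffAt.isSymmSndFDerivAt (n := ∞) hg.contDiffAt
    rw [minSmoothness_of_isRCLikeNormedField]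
    exact WithTop.coe_le_coe.2 le_top
  exact hs.eq _ _

lemma pd_scale {g : Eu d → ℝ} (hg : Smo g) (i : Fin d) (c : ℝ) :
    pd i (fun x => g (c • x)) = fun x => c * pd i g (c • x) := by
  funext x
  unfold pd
  have h1 : HasFDerivAt (fun y : Eu d => c • y) (c • ContinuousLinearMap.id ℝ (Eu d)) x :=
    (hasFDerivAt_id x).const_smul c
  have h2 := ((hg.diff (c • x)).hasFDerivAt).comp x h1
  have h3 : fderiv ℝ (fun y : Eu d => g (c • y)) x =
      (fderiv ℝ g (c • x)).comp (c • ContinuousLinearMap.id ℝ (Eu d)) := h2.fderiv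
  rw [h3]
  simp

lemma Smo.scale {g : Eu d → ℝ} (hg : Smo g) (c : ℝ) : Smo (fun x => g (c • x)) :=
  hg.comp (contDiff_const_smul c)

/-- the Laplace operator -/
def Lc (g : Eu d → ℝ) : Eu d → ℝ := fun x => ∑ i, pd i (pd i g) x

lemma Smo.Lc {g : Eu d → ℝ} (hg : Smo g) : Smo (Lc g) :=
  ContDiff.sum fun i _ => (hg.pd i).pd i

lemma Lc_neg {f : Eu d → ℝ} : Lc (fun x => -f x) = fun x => -Lc f x := by
  funext x
  unfold Lc
  simp only [pd_neg, Finset.sum_neg_distrib]

lemma Lc_mul {f g : Eu d → ℝ} (hf : Smo f) (hg : Smo g) :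
    Lc (fun x => f x * g x) = fun x => f x * Lc g x + 2 * ∑ i, pd i f x * pd i g x +
      Lc f x * g x := by
  funext x
  unfold Lc
  have h1 : ∀ i, pd i (pd i (fun x => f x * g x)) x =
      f x * pd i (pd i g) x + 2 * (pd i f x * pd i g x) + pd i (pd i f) x * g x := by
    intro i
    rw [pd_mul hf hg, pd_add (hf.mul (hg.pd i)) ((hf.pd i).mul hg), pd_mul hf (hg.pd i),
      pd_mul (hf.pd i) hg]
    ring
  rw [Finset.sum_congr rfl fun i _ => h1 i]
  rw [Finset.sum_add_distrib, Finset.sum_add_distrib, ← Finset.mul_sum, ← Finset.mul_sum,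
    Finset.sum_mul]

lemma Lc_scale {g : Eu d → ℝ} (hg : Smo g) (c : ℝ) :
    Lc (fun x => g (c • x)) = fun x => c ^ 2 * Lc g (c • x) := by
  funext x
  unfold Lc
  rw [Finset.mul_sum]
  refine Finset.sum_congr rfl fun i _ => ?_
  rw [pd_scale hg, pd_const_mul ((hg.pd i).scale c), pd_scale (hg.pd i)]
  ring

/-- cut-off of a function -/
theorem cutoff {u η : Eu d → ℝ} (hu : Smo u) (hη : Smo η) (hc : HasCompactSupport η)
    (h1 : η 0 = 1) (m0 : MemLp u 2) (m1 : ∀ i, MemLp (pd i u) 2) (m2 : MemLp (Lc u) 2) :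
    Tendsto (fun c : ℝ => ∫ x, (Lc (fun y => η (c • y) * u y) x - Lc u x) ^ 2)
      (𝓝 0) (𝓝 0) := by
  obtain ⟨B, hB⟩ : ∃ B : ℝ, 1 ≤ B ∧ (∀ x, |η x| ≤ B) ∧ (∀ i x, |pd i η x| ≤ B) ∧
      (∀ x, |Lc η x| ≤ B) := by
    have b0 : ∃ B, ∀ x, |η x| ≤ B := by
      obtain ⟨B, hB⟩ := hc.exists_bound_of_continuous hη.continuous
      exact ⟨B, hB⟩
    have b1 : ∀ i, ∃ B, ∀ x, |pd i η x| ≤ B := fun i => by
      obtain ⟨B, hB⟩ := (HasCompactSupport.pd hc i).exists_bound_of_continuous
        (hη.pd i).continuous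
      exact ⟨B, hB⟩
    have b2 : ∃ B, ∀ x, |Lc η x| ≤ B := by
      have h3 : ∀ i, ∃ B, ∀ x, |pd i (pd i η) x| ≤ B := fun i => by
        obtain ⟨B, hB⟩ := (HasCompactSupport.pd (HasCompactSupport.pd hc i) i).exists_bound_of_continuous
          ((hη.pd i).pd i).continuous
        exact ⟨B, hB⟩
      choose B hB using h3
      exact ⟨∑ i, B i, fun x => (Finset.abs_sum_le_sum_abs _ _).trans
        (Finset.sum_le_sum fun i _ => hB i x)⟩
    obtain ⟨B0, h0⟩ := b0
    choose B1 h1 using b1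
    obtain ⟨B2, h2⟩ := b2
    refine ⟨1 + |B0| + ∑ i, |B1 i| + |B2|, ?_, fun x => ?_, fun i x => ?_, fun x => ?_⟩
    · have : 0 ≤ ∑ i, |B1 i| := Finset.sum_nonneg fun _ _ => abs_nonneg _
      have := abs_nonneg B0; have := abs_nonneg B2; linarith
    · have h3 := h0 x; have h4 := le_abs_self B0
      have : 0 ≤ ∑ i, |B1 i| := Finset.sum_nonneg fun _ _ => abs_nonneg _
      have := abs_nonneg B2; linarith
    · have h3 := h1 i x; have h4 := le_abs_self (B1 i)
      have h5 : |B1 i| ≤ ∑ i, |B1 i| :=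
        Finset.single_le_sum (f := fun i => |B1 i|) (fun _ _ => abs_nonneg _) (Finset.mem_univ i)
      have := abs_nonneg B2; have := abs_nonneg B0; linarith
    · have h3 := h2 x; have h4 := le_abs_self B2
      have : 0 ≤ ∑ i, |B1 i| := Finset.sum_nonneg fun _ _ => abs_nonneg _
      have := abs_nonneg B0; linarith
  obtain ⟨hB1, hη0, hη1, hη2⟩ := hB
  have hform : ∀ c x, Lc (fun y => η (c • y) * u y) x - Lc u x =
      (η (c • x) - 1) * Lc u x + 2 * ∑ i, c * pd i η (c • x) * pd i u x +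
        c ^ 2 * Lc η (c • x) * u x := by
    intro c x
    rw [Lc_mul (hη.scale c) hu, Lc_scale hη]
    simp only [pd_scale hη]
    ring
  simp only [hform]
  -- the dominating function
  obtain ⟨H, hH⟩ : ∃ H : Eu d → ℝ, H = fun x => |Lc u x| + ∑ i, |pd i u x| + |u x| := ⟨_, rfl⟩
  have hHm : MemLp H 2 := by
    rw [hH]
    exact (m2.abs.add (memLp_finsetSum _ fun i _ => (m1 i).abs)).add m0.abs
  have hHi : Integrable (fun x => (3 * B * H x) ^ 2) := (hHm.const_mul (3 * B)).integrable_sq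
  suffices hs : Tendsto (fun c : ℝ => ∫ x, ((η (c • x) - 1) * Lc u x +
      2 * ∑ i, c * pd i η (c • x) * pd i u x + c ^ 2 * Lc η (c • x) * u x) ^ 2)
      (𝓝 0) (𝓝 (∫ x : Eu d, (0 : ℝ))) by simpa using hs
  refine tendsto_integral_filter_of_dominated_convergence (fun x => (3 * B * H x) ^ 2) ?_ ?_ hHi ?_
  · refine Eventually.of_forall fun c => ?_
    have c1 := hη.continuous
    have c2 : ∀ i, Continuous (pd i η) := fun i => (hη.pd i).continuous
    have c3 : Continuous (Lc η) := hη.Lc.continuous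
    have c4 : Continuous u := hu.continuous
    have c5 : ∀ i, Continuous (pd i u) := fun i => (hu.pd i).continuous
    have c6 : Continuous (Lc u) := hu.Lc.continuous
    refine Continuous.aestronglyMeasurable ?_
    refine Continuous.pow ?_ 2
    refine ((((c1.comp (continuous_const_smul c)).sub continuous_const).mul c6).add
      (continuous_const.mul (continuous_finsetSum _ fun i _ => ?_))).add ?_
    · exact (continuous_const.mul ((c2 i).comp (continuous_const_smul c))).mul (c5 i)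
    · exact (continuous_const.mul (c3.comp (continuous_const_smul c))).mul c4
  · have hnb : ∀ᶠ c : ℝ in 𝓝 0, |c| ≤ 1 := by
      have : ∀ᶠ c : ℝ in 𝓝 0, |c| < 1 := by
        have h : Tendsto (fun c : ℝ => |c|) (𝓝 0) (𝓝 0) := continuous_abs.tendsto' 0 0 (by simp)
        exact h.eventually (gt_mem_nhds one_pos)
      exact this.mono fun c hc => hc.le
    filter_upwards [hnb] with c hc'
    refine Eventually.of_forall fun x => ?_
    rw [Real.norm_eq_abs, abs_pow]
    refine pow_le_pow_left₀ (abs_nonneg _) ?_ 2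
    have t1 : |(η (c • x) - 1) * Lc u x| ≤ 2 * B * |Lc u x| := by
      rw [abs_mul]
      refine mul_le_mul_of_nonneg_right ?_ (abs_nonneg _)
      have := hη0 (c • x)
      calc |η (c • x) - 1| ≤ |η (c • x)| + |1| := abs_sub _ _
        _ ≤ 2 * B := by rw [abs_one]; linarith
    have t2 : |2 * ∑ i, c * pd i η (c • x) * pd i u x| ≤ 2 * B * ∑ i, |pd i u x| := by
      rw [abs_mul, abs_two, mul_assoc, Finset.mul_sum]
      refine mul_le_mul_of_nonneg_left ?_ zero_le_two
      refine (Finset.abs_sum_le_sum_abs _ _).trans (Finset.sum_le_sum fun i _ => ?_)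
      rw [abs_mul, abs_mul]
      refine mul_le_mul_of_nonneg_right ?_ (abs_nonneg _)
      calc |c| * |pd i η (c • x)| ≤ 1 * B :=
            mul_le_mul hc' (hη1 i _) (abs_nonneg _) zero_le_one
        _ = B := one_mul B
    have t3 : |c ^ 2 * Lc η (c • x) * u x| ≤ B * |u x| := by
      rw [abs_mul, abs_mul, abs_pow]
      refine mul_le_mul_of_nonneg_right ?_ (abs_nonneg _)
      calc |c| ^ 2 * |Lc η (c • x)| ≤ 1 * B :=
            mul_le_mul (pow_le_one₀ (abs_nonneg _) hc') (hη2 _) (abs_nonneg _) zero_le_one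
        _ = B := one_mul B
    refine (abs_add_le _ _).trans ?_
    refine (add_le_add (abs_add_le _ _) le_rfl).trans ?_
    rw [hH]
    simp only
    have p1 := abs_nonneg (Lc u x)
    have p2 : 0 ≤ ∑ i, |pd i u x| := Finset.sum_nonneg fun _ _ => abs_nonneg _
    have p3 := abs_nonneg (u x)
    nlinarith
  · refine Eventually.of_forall fun x => ?_
    have l0 : Tendsto (fun c : ℝ => c • x) (𝓝 0) (𝓝 0) := by
      have : Continuous fun c : ℝ => c • x := continuous_id.smul continuous_const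
      exact this.tendsto' 0 0 (by simp)
    have l1 : Tendsto (fun c : ℝ => η (c • x)) (𝓝 0) (𝓝 1) := by
      have := (hη.continuous.tendsto 0).comp l0
      rw [h1] at this
      exact this
    have l2 : ∀ i, Tendsto (fun c : ℝ => pd i η (c • x)) (𝓝 0) (𝓝 (pd i η 0)) := fun i =>
      ((hη.pd i).continuous.tendsto 0).comp l0
    have l3 : Tendsto (fun c : ℝ => Lc η (c • x)) (𝓝 0) (𝓝 (Lc η 0)) :=
      (hη.Lc.continuous.tendsto 0).comp l0
    have lc : Tendsto (fun c : ℝ => c) (𝓝 0) (𝓝 0) := tendsto_id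
    have k1 := (l1.sub_const 1).mul_const (Lc u x)
    have k2 : Tendsto (fun c : ℝ => 2 * ∑ i, c * pd i η (c • x) * pd i u x) (𝓝 0)
        (𝓝 (2 * ∑ i, 0 * pd i η 0 * pd i u x)) :=
      (tendsto_finsetSum _ fun i _ => (lc.mul (l2 i)).mul_const _).const_mul 2
    have k3 := ((lc.pow 2).mul l3).mul_const (u x)
    have k := ((k1.add k2).add k3).pow 2
    have e : ((1 - 1) * Lc u x + 2 * ∑ i, 0 * pd i η 0 * pd i u x + 0 ^ 2 * Lc η 0 * u x) ^ 2 =
        (0 : ℝ) := by simp
    rw [e] at k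
    exact k

end

end Pool.Agent.U322.FL
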