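import Mathlib
import Pool.Agent.U322.FL.Pd

/-!
# Free continuum limit of lattice Yang-Mills: Fourier transforms
-/

open MeasureTheory Filter
open scoped ContDiff Topology FourierTransform SchwartzMap LineDeriv

namespace Pool.Agent.U322.FL

set_option linter.unusedSectionVars false
set_option linter.unusedVariables false

noncomputable section

variable {d : ℕ}

/-- Fourier transform of a real function -/
def FT (g : Eu d → ℝ) : Eu d → ℂ := 𝓕 (fun x => (g x : ℂ))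

/-- smooth functions of compact support as Schwartz functions -/
def sw {g : Eu d → ℝ} (hg : Smo g) (hc : HasCompactSupport g) : 𝓢(Eu d, ℂ) :=
  HasCompactSupport.toSchwartzMap (f := fun x => (g x : ℂ))
    (hc.comp_left (g := fun r : ℝ => (r : ℂ)) Complex.ofReal_zero)
    (Complex.ofRealCLM.contDiff.comp hg)

lemma sw_apply {g : Eu d → ℝ} (hg : Smo g) (hc : HasCompactSupport g) (x : Eu d) :
    sw hg hc x = (g x : ℂ) := rfl

lemma FT_sw {g : Eu d → ℝ} (hg : Smo g) (hc : HasCompactSupport g) :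
    FT g = (𝓕 (sw hg hc) : 𝓢(Eu d, ℂ)) := by
  rw [SchwartzMap.fourier_coe]
  rfl

/-- partial derivatives of Schwartz functions -/
lemma line_re (u : 𝓢(Eu d, ℂ)) (i : Fin d) :
    pd i (fun x => (u x).re) = fun x => ((∂_{e1 i} u : 𝓢(Eu d, ℂ)) x).re := by
  funext x
  unfold pd
  have h1 : HasFDerivAt (fun x => (u x).re) (Complex.reCLM.comp (fderiv ℝ u x)) x :=
    Complex.reCLM.hasFDerivAt.comp x (u.hasFDerivAt x)
  rw [h1.fderiv, SchwartzMap.lineDerivOp_apply_eq_fderiv]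
  rfl

lemma sw_line {g : Eu d → ℝ} (hg : Smo g) (hc : HasCompactSupport g) (i : Fin d) :
    ∂_{e1 i} (sw hg hc) = sw (hg.pd i) (HasCompactSupport.pd hc i) := by
  ext x
  rw [SchwartzMap.lineDerivOp_apply_eq_fderiv, sw_apply]
  have h1 : HasFDerivAt (fun x => ((g x : ℝ) : ℂ)) (Complex.ofRealCLM.comp (fderiv ℝ g x)) x :=
    Complex.ofRealCLM.hasFDerivAt.comp x (hg.diff x).hasFDerivAt
  have h2 : fderiv ℝ (sw hg hc) x = Complex.ofRealCLM.comp (fderiv ℝ g x) := h1.fderiv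
  rw [h2]
  rfl

/-- second partial derivative -/
def ln2 (i : Fin d) (u : 𝓢(Eu d, ℂ)) : 𝓢(Eu d, ℂ) :=
  ∂_{e1 i} (∂_{e1 i} u : 𝓢(Eu d, ℂ))

lemma inner_e1 (p : Eu d) (i : Fin d) : inner ℝ p (e1 i) = p i := by
  unfold e1
  rw [EuclideanSpace.inner_single_right]
  simp

lemma tg (i : Fin d) : (fun p : Eu d => inner ℝ p (e1 i)).HasTemperateGrowth := by fun_prop

lemma four_line (u : 𝓢(Eu d, ℂ)) (i : Fin d) (p : Eu d) :
    (𝓕 (∂_{e1 i} u) : 𝓢(Eu d, ℂ)) p = 2 * Real.pi * Complex.I * (p i : ℂ) * (𝓕 u : 𝓢(Eu d, ℂ)) p := by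
  rw [SchwartzMap.fourier_lineDerivOp_eq]
  rw [smul_apply, SchwartzMap.smulLeftCLM_apply_apply (tg i), inner_e1]
  simp only [smul_eq_mul, Complex.real_smul]
  ring

lemma FT_pd {g : Eu d → ℝ} (hg : Smo g) (hc : HasCompactSupport g) (i : Fin d) (p : Eu d) :
    FT (pd i g) p = 2 * Real.pi * Complex.I * (p i : ℂ) * FT g p := by
  rw [FT_sw (hg.pd i) (HasCompactSupport.pd hc i), FT_sw hg hc, ← sw_line hg hc, four_line]

/-- Plancherel's formula -/
lemma planch {g : Eu d → ℝ} (hg : Smo g) (hc : HasCompactSupport g) :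
    ∫ x, g x ^ 2 = ∫ p, ‖FT g p‖ ^ 2 := by
  have h1 := SchwartzMap.integral_norm_sq_fourier (sw hg hc)
  rw [FT_sw hg hc, h1]
  refine integral_congr_ae (Eventually.of_forall fun x => ?_)
  simp only [sw_apply, Complex.norm_real, Real.norm_eq_abs, sq_abs]

lemma FT_add {f g : Eu d → ℝ} (hf : Smo f) (hfc : HasCompactSupport f) (hg : Smo g)
    (hgc : HasCompactSupport g) (p : Eu d) :
    FT (fun x => f x + g x) p = FT f p + FT g p := by
  have h1 : sw (hf.add hg) (hfc.add hgc) = sw hf hfc + sw hg hgc := by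
    ext x
    simp [sw_apply]
  have h2 := FT_sw (hf.add hg) (hfc.add hgc)
  rw [h1, FourierTransform.fourier_add] at h2
  rw [FT_sw hf hfc, FT_sw hg hgc]
  exact congrFun h2 p

lemma FT_neg {f : Eu d → ℝ} (p : Eu d) : FT (fun x => -f x) p = -FT f p := by
  unfold FT
  rw [Real.fourier_eq, Real.fourier_eq, ← integral_neg]
  refine integral_congr_ae (Eventually.of_forall fun x => ?_)
  simp

lemma FT_zero (p : Eu d) : FT (fun _ => (0 : ℝ)) p = 0 := by
  unfold FT
  rw [Real.fourier_eq]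
  simp

lemma FT_sum {ι : Type*} (s : Finset ι) {f : ι → Eu d → ℝ} (hf : ∀ k, Smo (f k))
    (hc : ∀ k, HasCompactSupport (f k)) (p : Eu d) :
    FT (fun x => ∑ k ∈ s, f k x) p = ∑ k ∈ s, FT (f k) p := by
  classical
  have key : Smo (fun x => ∑ k ∈ s, f k x) ∧ HasCompactSupport (fun x => ∑ k ∈ s, f k x) ∧
      FT (fun x => ∑ k ∈ s, f k x) p = ∑ k ∈ s, FT (f k) p := by
    induction s using Finset.induction_on with
    | empty =>
      refine ⟨by simpa using contDiff_const, ?_, ?_⟩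
      · simp only [Finset.sum_empty]
        exact HasCompactSupport.zero
      · simp only [Finset.sum_empty]
        exact FT_zero p
    | insert a s ha ih =>
      obtain ⟨h1, h2, h3⟩ := ih
      have e : (fun x => ∑ k ∈ insert a s, f k x) = fun x => f a x + ∑ k ∈ s, f k x := by
        funext x; rw [Finset.sum_insert ha]
      rw [e]
      refine ⟨(hf a).add h1, (hc a).add h2, ?_⟩
      rw [FT_add (hf a) (hc a) h1 h2, h3, Finset.sum_insert ha]
  exact key.2.2

/-- the multiplier -/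
def mul1 (η : Eu d → ℝ) (δ : ℝ) (p : Eu d) : ℝ :=
  η (δ • p) * (1 - η (δ⁻¹ • p)) / (4 * Real.pi ^ 2 * ‖p‖ ^ 2)

lemma mul1_smooth {η : Eu d → ℝ} (hη : Smo η) (h1 : ∀ᶠ x in 𝓝 (0 : Eu d), η x = 1) {δ : ℝ}
    (hδ : 0 < δ) : Smo (mul1 η δ) := by
  refine contDiff_iff_contDiffAt.2 fun p => ?_
  by_cases hp : p = 0
  · subst hp
    have h2 : Tendsto (fun p : Eu d => δ⁻¹ • p) (𝓝 0) (𝓝 0) :=
      (continuous_const_smul δ⁻¹).tendsto' 0 0 (by simp)
    have h3 : mul1 η δ =ᶠ[𝓝 0] fun _ => (0 : ℝ) := by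
      filter_upwards [h2.eventually h1] with p hp
      unfold mul1
      rw [hp]
      simp
    exact (contDiffAt_const (c := (0 : ℝ))).congr_of_eventuallyEq h3
  · unfold mul1
    refine ContDiffAt.div ?_ ?_ ?_
    · exact ((hη.scale δ).contDiffAt).mul (contDiffAt_const.sub (hη.scale δ⁻¹).contDiffAt)
    · exact contDiffAt_const.mul (contDiff_norm_sq ℝ).contDiffAt
    · have : 0 < ‖p‖ := norm_pos_iff.2 hp
      positivity

lemma mul1_compact {η : Eu d → ℝ} (hc : HasCompactSupport η) {δ : ℝ} (hδ : 0 < δ) :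
    HasCompactSupport (mul1 η δ) := by
  have h1 : HasCompactSupport fun p : Eu d => η (δ • p) :=
    hc.comp_smul hδ.ne'
  have h2 : mul1 η δ = fun p => η (δ • p) *
      ((1 - η (δ⁻¹ • p)) / (4 * Real.pi ^ 2 * ‖p‖ ^ 2)) := by
    funext p
    unfold mul1
    rw [mul_div_assoc]
  rw [h2]
  exact h1.mul_right

/-- the bump function -/
lemma exists_bump (d : ℕ) : ∃ η : Eu d → ℝ, Smo η ∧ HasCompactSupport η ∧
    (∀ᶠ x in 𝓝 (0 : Eu d), η x = 1) ∧ η 0 = 1 ∧ ∀ x, 0 ≤ η x ∧ η x ≤ 1 := by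
  let b : ContDiffBump (0 : Eu d) := ⟨1, 2, zero_lt_one, one_lt_two⟩
  exact ⟨b, b.contDiff, b.hasCompactSupport, b.eventuallyEq_one, b.eventuallyEq_one.self_of_nhds,
    fun x => ⟨b.nonneg, b.le_one⟩⟩

lemma norm_sq_sum (p : Eu d) : ∑ i, (p i) ^ 2 = ‖p‖ ^ 2 := by
  rw [EuclideanSpace.norm_sq_eq]
  exact Finset.sum_congr rfl fun i _ => by rw [Real.norm_eq_abs, sq_abs]

lemma memLp_re (u : 𝓢(Eu d, ℂ)) : MemLp (fun x => (u x).re) 2 := by
  have h1 := u.memLp 2 (volume : Measure (Eu d))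
  refine h1.mono (Complex.continuous_re.comp u.continuous).aestronglyMeasurable
    (Eventually.of_forall fun x => ?_)
  rw [Real.norm_eq_abs]
  exact Complex.abs_re_le_norm _

lemma sum_compact {ι : Type*} (s : Finset ι) {f : ι → Eu d → ℝ}
    (hc : ∀ k, HasCompactSupport (f k)) : HasCompactSupport (fun x => ∑ k ∈ s, f k x) := by
  classical
  induction s using Finset.induction_on with
  | empty =>
    simp only [Finset.sum_empty]
    exact HasCompactSupport.zero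
  | insert a s ha ih =>
    have e : (fun x => ∑ k ∈ insert a s, f k x) = fun x => f a x + ∑ k ∈ s, f k x := by
      funext x; rw [Finset.sum_insert ha]
    rw [e]
    exact (hc a).add ih

lemma Lc_compact {f : Eu d → ℝ} (hc : HasCompactSupport f) : HasCompactSupport (Lc f) :=
  sum_compact _ fun i => HasCompactSupport.pd (HasCompactSupport.pd hc i) i

/-- the Laplace operator has dense range -/
theorem lap_dense (hd : 0 < d) {f : Eu d → ℝ} (hf : Smo f) (hc : HasCompactSupport f) {ε : ℝ} (hε : 0 < ε) :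
    ∃ ψ : Eu d → ℝ, Smo ψ ∧ HasCompactSupport ψ ∧ ∫ x, (f x + Lc ψ x) ^ 2 ≤ ε := by
  obtain ⟨η, hη, hηc, hη1, hη0, hηb⟩ := exists_bump d
  -- the first step
  obtain ⟨F, hF⟩ : ∃ F : 𝓢(Eu d, ℂ), F = 𝓕 (sw hf hc) := ⟨_, rfl⟩
  have hg : ∀ δ : ℝ, 0 < δ → (fun p : Eu d => ((mul1 η δ p : ℝ) : ℂ)).HasTemperateGrowth := by
    intro δ hδ
    have h1 : HasCompactSupport (fun p : Eu d => ((mul1 η δ p : ℝ) : ℂ)) :=
      (mul1_compact hηc hδ).comp_left (g := fun r : ℝ => (r : ℂ)) Complex.ofReal_zero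
    exact h1.hasTemperateGrowth (Complex.ofRealCLM.contDiff.comp (mul1_smooth hη hη1 hδ))
  obtain ⟨u, hu⟩ : ∃ u : ℝ → 𝓢(Eu d, ℂ), u = fun δ =>
      𝓕⁻ (SchwartzMap.smulLeftCLM ℂ (fun p : Eu d => ((mul1 η δ p : ℝ) : ℂ)) F) := ⟨_, rfl⟩
  obtain ⟨w, hw⟩ : ∃ w : ℝ → 𝓢(Eu d, ℂ), w = fun δ =>
      sw hf hc + ∑ i, ln2 i (u δ) := ⟨_, rfl⟩
  have hFw : ∀ δ : ℝ, 0 < δ → ∀ p : Eu d, p ≠ 0 → (𝓕 (w δ) : 𝓢(Eu d, ℂ)) p =
      (1 - η (δ • p) * (1 - η (δ⁻¹ • p)) : ℝ) * F p := by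
    intro δ hδ p hp
    have h1 : (𝓕 (w δ) : 𝓢(Eu d, ℂ)) = F + ∑ i, (𝓕 (ln2 i (u δ)) : 𝓢(Eu d, ℂ)) := by
      rw [hw]
      simp only
      rw [FourierTransform.fourier_add, hF]
      congr 1
      exact map_sum (SchwartzMap.fourierTransformCLM ℂ (V := Eu d) (E := ℂ)) _ _
    rw [h1]
    have h2 : (𝓕 (u δ) : 𝓢(Eu d, ℂ)) =
        SchwartzMap.smulLeftCLM ℂ (fun p : Eu d => ((mul1 η δ p : ℝ) : ℂ)) F := by
      rw [hu]
      exact FourierTransform.fourier_fourierInv_eq _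
    have h3 : (F + ∑ i, (𝓕 (ln2 i (u δ)) : 𝓢(Eu d, ℂ)) : 𝓢(Eu d, ℂ)) p =
        F p + ∑ i, (𝓕 (ln2 i (u δ)) : 𝓢(Eu d, ℂ)) p := by
      rw [add_apply, sum_apply]
    rw [h3]
    unfold ln2
    simp only [four_line]
    rw [h2]
    rw [SchwartzMap.smulLeftCLM_apply_apply (hg δ hδ), smul_eq_mul]
    have h4 : ∑ i, 2 * (Real.pi : ℂ) * Complex.I * (p i : ℂ) *
        (2 * (Real.pi : ℂ) * Complex.I * (p i : ℂ) * (((mul1 η δ p : ℝ) : ℂ) * F p)) =
        -(((4 * Real.pi ^ 2 * ‖p‖ ^ 2 * mul1 η δ p : ℝ) : ℂ) * F p) := by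
      have h5 : ∀ i, 2 * (Real.pi : ℂ) * Complex.I * (p i : ℂ) *
          (2 * (Real.pi : ℂ) * Complex.I * (p i : ℂ) * (((mul1 η δ p : ℝ) : ℂ) * F p)) =
          ((p i ^ 2 : ℝ) : ℂ) * (-(4 * (Real.pi : ℂ) ^ 2) * (((mul1 η δ p : ℝ) : ℂ) * F p)) := by
        intro i
        have h6 := Complex.I_sq
        push_cast
        linear_combination (4 * (Real.pi : ℂ) ^ 2 * (p i : ℂ) ^ 2 *
          (((mul1 η δ p : ℝ) : ℂ) * F p)) * h6
      rw [Finset.sum_congr rfl fun i _ => h5 i, ← Finset.sum_mul, ← Complex.ofReal_sum,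
        norm_sq_sum]
      push_cast
      ring
    rw [h4]
    have hpn : 0 < ‖p‖ := norm_pos_iff.2 hp
    have h7 : 4 * Real.pi ^ 2 * ‖p‖ ^ 2 * mul1 η δ p = η (δ • p) * (1 - η (δ⁻¹ • p)) := by
      unfold mul1
      field_simp
    rw [h7]
    push_cast
    ring
  have hlim : Tendsto (fun δ : ℝ => ∫ p, ‖(1 - η (δ • p) * (1 - η (δ⁻¹ • p)) : ℝ) * F p‖ ^ 2)
      (𝓝[>] 0) (𝓝 0) := by
    suffices hs : Tendsto (fun δ : ℝ => ∫ p, ‖(1 - η (δ • p) * (1 - η (δ⁻¹ • p)) : ℝ) * F p‖ ^ 2)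
      (𝓝[>] 0) (𝓝 (∫ p : Eu d, (0 : ℝ))) by simpa using hs
    have hFi : Integrable (fun p => ‖F p‖ ^ 2) :=
      (F.memLp 2 (volume : Measure (Eu d))).integrable_norm_pow (by norm_num)
    refine tendsto_integral_filter_of_dominated_convergence (fun p => ‖F p‖ ^ 2) ?_ ?_ hFi ?_
    · refine Eventually.of_forall fun δ => Continuous.aestronglyMeasurable ?_
      have c1 := hη.continuous
      have c2 := F.continuous
      have c3 : Continuous fun p : Eu d => η (δ • p) := c1.comp (continuous_const_smul δ)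
      have c4 : Continuous fun p : Eu d => η (δ⁻¹ • p) := c1.comp (continuous_const_smul δ⁻¹)
      exact ((Complex.continuous_ofReal.comp (continuous_const.sub
        (c3.mul (continuous_const.sub c4)))).mul c2).norm.pow 2
    · refine Eventually.of_forall fun δ => Eventually.of_forall fun p => ?_
      rw [Real.norm_eq_abs, abs_of_nonneg (sq_nonneg _), norm_mul]
      refine pow_le_pow_left₀ (by positivity) ?_ 2
      have b1 := hηb (δ • p)
      have b2 := hηb (δ⁻¹ • p)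
      have b3 : ‖((1 - η (δ • p) * (1 - η (δ⁻¹ • p)) : ℝ) : ℂ)‖ ≤ 1 := by
        rw [Complex.norm_real, Real.norm_eq_abs, abs_le]
        constructor
        · nlinarith [mul_le_mul b1.2 (show 1 - η (δ⁻¹ • p) ≤ 1 by linarith) (by linarith)
            zero_le_one]
        · nlinarith [mul_nonneg b1.1 (show 0 ≤ 1 - η (δ⁻¹ • p) by linarith)]
      calc _ ≤ 1 * ‖F p‖ := mul_le_mul_of_nonneg_right b3 (norm_nonneg _)
        _ = _ := one_mul _
    · have h0 : ∀ᵐ p : Eu d, p ≠ 0 := by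
        have : Nonempty (Fin d) := ⟨⟨0, hd⟩⟩
        have : Nontrivial (Eu d) := inferInstance
        exact Measure.ae_ne (volume : Measure (Eu d)) (0 : Eu d)
      refine h0.mono fun p hp => ?_
      have l1 : Tendsto (fun δ : ℝ => η (δ • p)) (𝓝[>] 0) (𝓝 1) := by
        have l0 : Tendsto (fun δ : ℝ => δ • p) (𝓝 0) (𝓝 0) := by
          have : Continuous fun δ : ℝ => δ • p := continuous_id.smul continuous_const
          exact this.tendsto' 0 0 (by simp)
        have l0' : Tendsto (fun δ : ℝ => δ • p) (𝓝[>] 0) (𝓝 0) :=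
          l0.mono_left nhdsWithin_le_nhds
        have := (hη.continuous.tendsto 0).comp l0'
        rw [hη0] at this
        exact this
      have l2 : ∀ᶠ δ : ℝ in 𝓝[>] 0, η (δ⁻¹ • p) = 0 := by
        obtain ⟨R, hR⟩ := hηc.isBounded.subset_closedBall (0 : Eu d)
        have l3 : Tendsto (fun δ : ℝ => δ⁻¹ * ‖p‖) (𝓝[>] 0) atTop :=
          tendsto_inv_nhdsGT_zero.atTop_mul_const (norm_pos_iff.2 hp)
        filter_upwards [l3.eventually_gt_atTop R, self_mem_nhdsWithin] with δ h1 h2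
        by_contra h3
        have h4 := hR (subset_tsupport η h3)
        rw [mem_closedBall_zero_iff, norm_smul, norm_inv, Real.norm_eq_abs,
          abs_of_pos (Set.mem_Ioi.1 h2)] at h4
        linarith
      have l4 : Tendsto (fun δ : ℝ => η (δ⁻¹ • p)) (𝓝[>] 0) (𝓝 0) :=
        tendsto_const_nhds.congr' (l2.mono fun δ h => h.symm)
      have l5 : Tendsto (fun δ : ℝ => 1 - η (δ • p) * (1 - η (δ⁻¹ • p))) (𝓝[>] 0)
          (𝓝 (1 - 1 * (1 - 0))) := tendsto_const_nhds.sub (l1.mul (tendsto_const_nhds.sub l4))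
      have l6 : Tendsto (fun δ : ℝ => ‖((1 - η (δ • p) * (1 - η (δ⁻¹ • p)) : ℝ) : ℂ) * F p‖ ^ 2)
          (𝓝[>] 0) (𝓝 (‖((1 - 1 * (1 - 0) : ℝ) : ℂ) * F p‖ ^ 2)) :=
        (((Complex.continuous_ofReal.tendsto _).comp l5).mul_const _).norm.pow 2
      simpa using l6
  obtain ⟨δ, hδ, hδε⟩ : ∃ δ : ℝ, 0 < δ ∧ ∫ x, ‖w δ x‖ ^ 2 ≤ ε / 4 := by
    have h1 := (hlim.eventually (gt_mem_nhds (show 0 < ε / 4 by linarith))).and
      self_mem_nhdsWithin
    obtain ⟨δ, h2, h3⟩ := h1.exists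
    refine ⟨δ, h3, ?_⟩
    rw [← SchwartzMap.integral_norm_sq_fourier]
    refine le_trans (le_of_eq ?_) h2.le
    have : Nonempty (Fin d) := ⟨⟨0, hd⟩⟩
    have : Nontrivial (Eu d) := inferInstance
    refine integral_congr_ae ((Measure.ae_ne (volume : Measure (Eu d)) (0 : Eu d)).mono
      fun p hp => ?_)
    simp only
    rw [hFw δ h3 p hp]
  -- the real part
  obtain ⟨v, hv⟩ : ∃ v : Eu d → ℝ, v = fun x => (u δ x).re := ⟨_, rfl⟩
  have hvs : Smo v := by
    rw [hv]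
    exact Complex.reCLM.contDiff.comp (u δ).smooth'
  have hpv : ∀ i, pd i v = fun x => ((∂_{e1 i} (u δ) : 𝓢(Eu d, ℂ)) x).re := fun i => by
    rw [hv]; exact line_re _ _
  have hppv : ∀ i, pd i (pd i v) = fun x => ((ln2 i (u δ)) x).re := fun i => by
    rw [hpv]; exact line_re _ _
  have hLv : Lc v = fun x => ((∑ i, ln2 i (u δ) : 𝓢(Eu d, ℂ)) x).re := by
    funext x
    unfold Lc
    simp only [hppv]
    rw [sum_apply, Complex.re_sum]
  have hre : ∫ x, (f x + Lc v x) ^ 2 ≤ ε / 4 := by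
    refine le_trans ?_ hδε
    have hwi : Integrable (fun x => ‖w δ x‖ ^ 2) :=
      ((w δ).memLp 2 (volume : Measure (Eu d))).integrable_norm_pow (by norm_num)
    refine integral_mono_of_nonneg (Eventually.of_forall fun x => sq_nonneg _) hwi
      (Eventually.of_forall fun x => ?_)
    have h1 : f x + Lc v x = (w δ x).re := by
      rw [hLv, hw]
      simp only
      rw [add_apply, Complex.add_re, sw_apply, Complex.ofReal_re]
    simp only
    rw [h1, ← sq_abs]
    exact pow_le_pow_left₀ (abs_nonneg _) (Complex.abs_re_le_norm _) 2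
  have m0 : MemLp v 2 := by rw [hv]; exact memLp_re _
  have m1 : ∀ i, MemLp (pd i v) 2 := fun i => by rw [hpv]; exact memLp_re _
  have m2 : MemLp (Lc v) 2 := by rw [hLv]; exact memLp_re _
  have hcut := cutoff hvs hη hηc hη0 m0 m1 m2
  obtain ⟨c, hc1, hc2⟩ := (((hcut.mono_left nhdsWithin_le_nhds).eventually
    (gt_mem_nhds (show 0 < ε / 4 by linarith))).and (self_mem_nhdsWithin (s := Set.Ioi (0 : ℝ)))).exists
  refine ⟨fun y => η (c • y) * v y, (hη.scale c).mul hvs, ?_, ?_⟩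
  · exact (hηc.comp_smul (Set.mem_Ioi.1 hc2).ne').mul_right
  · obtain ⟨z, hz⟩ : ∃ z : Eu d → ℝ, z = Lc (fun y => η (c • y) * v y) := ⟨_, rfl⟩
    rw [← hz] at hc1 ⊢
    have hzs : Smo z := by rw [hz]; exact Smo.Lc ((hη.scale c).mul hvs)
    have hzc : HasCompactSupport (fun y => η (c • y) * v y) :=
      (hηc.comp_smul (Set.mem_Ioi.1 hc2).ne').mul_right
    have hfm : MemLp f 2 := hf.continuous.memLp_of_hasCompactSupport hc
    have hzm : MemLp z 2 := by
      have h1 : HasCompactSupport z := by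
        rw [hz]
        exact Lc_compact hzc
      exact hzs.continuous.memLp_of_hasCompactSupport h1
    have i1 : Integrable (fun x => (f x + Lc v x) ^ 2) := (hfm.add m2).integrable_sq
    have i2 : Integrable (fun x => (z x - Lc v x) ^ 2) := (hzm.sub m2).integrable_sq
    have h3 : ∫ x, (f x + z x) ^ 2 ≤ ∫ x, (2 * (f x + Lc v x) ^ 2 + 2 * (z x - Lc v x) ^ 2) := by
      refine integral_mono_of_nonneg (Eventually.of_forall fun x => sq_nonneg _)
        ((i1.const_mul 2).add (i2.const_mul 2)) (Eventually.of_forall fun x => ?_)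
      simp only
      nlinarith [sq_nonneg ((f x + Lc v x) - (z x - Lc v x))]
    rw [integral_add (i1.const_mul 2) (i2.const_mul 2), integral_const_mul,
      integral_const_mul] at h3
    linarith

end

end Pool.Agent.U322.FL
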