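import Mathlib
import Pool.Agent.U322.FL.Four

/-!
# Free continuum limit of lattice Yang-Mills: the covariance of the free Maxwell field
-/

open MeasureTheory Filter
open scoped ContDiff Topology FourierTransform SchwartzMap ENNReal

namespace Pool.Agent.U322.FL

set_option linter.unusedSectionVars false
set_option linter.unusedVariables false

noncomputable section

variable {n d : ℕ}

/-! ### the norm of `L ^ 2` -/

lemma norm_toLp_sqrt {α H : Type*} [MeasurableSpace α] {μ : Measure α} [NormedAddCommGroup H]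
    {u : α → H} (hu : MemLp u 2 μ) : ‖hu.toLp u‖ = Real.sqrt (∫ x, ‖u x‖ ^ 2 ∂μ) := by
  rw [Lp.norm_toLp, hu.eLpNorm_eq_integral_rpow_norm (by norm_num) (by norm_num),
    ENNReal.toReal_ofReal (by positivity), Real.sqrt_eq_rpow]
  norm_num

lemma l2_tri {α H : Type*} [MeasurableSpace α] {μ : Measure α} [NormedAddCommGroup H]
    {u v : α → H} (hu : MemLp u 2 μ) (hv : MemLp v 2 μ) :
    |Real.sqrt (∫ x, ‖u x‖ ^ 2 ∂μ) - Real.sqrt (∫ x, ‖v x‖ ^ 2 ∂μ)| ≤
      Real.sqrt (∫ x, ‖u x - v x‖ ^ 2 ∂μ) := by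
  have h := abs_norm_sub_norm_le (hu.toLp u) (hv.toLp v)
  rw [← MemLp.toLp_sub] at h
  rw [norm_toLp_sqrt hu, norm_toLp_sqrt hv, norm_toLp_sqrt (hu.sub hv)] at h
  exact h

/-! ### test forms -/

/-- Test forms: smooth two forms on `ℝ^d` of compact support with values in `ℝ^n`. -/
structure TestForm (n d : ℕ) where
  /-- the components -/
  f : Fin n → Fin d → Fin d → EuclideanSpace ℝ (Fin d) → ℝ
  smooth : ∀ a j k, ContDiff ℝ ∞ (f a j k)
  compact : ∀ a j k, HasCompactSupport (f a j k)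
  anti : ∀ a j k x, f a j k x = -f a k j x

/-- `∑_j p_j f_jk` for the Fourier transform of a form -/
def dv1 (f : TestForm n d) (a : Fin n) (k : Fin d) (p : Eu d) : ℂ :=
  ∑ j, (p j : ℂ) * FT (f.f a j k) p

/-- variance of the free Maxwell field smeared with a form -/
def vM (f : TestForm n d) : ℝ := ∑ a, ∑ k, ∫ p, ‖dv1 f a k p‖ ^ 2 / ‖p‖ ^ 2

/-- the projection on the exact forms, up to an isometry -/
def YM (f : TestForm n d) (p : Eu d) : EuclideanSpace ℂ (Fin n × Fin d) :=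
  WithLp.toLp 2 fun q => dv1 f q.1 q.2 p / (‖p‖ : ℂ)

lemma norm_YM (f : TestForm n d) (p : Eu d) :
    ‖YM f p‖ ^ 2 = ∑ a, ∑ k, ‖dv1 f a k p‖ ^ 2 / ‖p‖ ^ 2 := by
  rw [EuclideanSpace.norm_sq_eq, Fintype.sum_prod_type]
  refine Finset.sum_congr rfl fun a _ => Finset.sum_congr rfl fun k _ => ?_
  show ‖dv1 f a k p / (‖p‖ : ℂ)‖ ^ 2 = _
  rw [norm_div, div_pow, Complex.norm_real, norm_norm]

lemma FT_cont (f : TestForm n d) (a : Fin n) (j k : Fin d) : Continuous (FT (f.f a j k)) := by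
  rw [FT_sw (f.smooth a j k) (f.compact a j k)]
  exact SchwartzMap.continuous _

lemma FT_sq_int (f : TestForm n d) (a : Fin n) (j k : Fin d) :
    Integrable fun p => ‖FT (f.f a j k) p‖ ^ 2 := by
  rw [FT_sw (f.smooth a j k) (f.compact a j k)]
  exact (SchwartzMap.memLp _ 2 (volume : Measure (Eu d))).integrable_norm_pow (by norm_num)

lemma dv1_cont (f : TestForm n d) (a : Fin n) (k : Fin d) : Continuous (dv1 f a k) := by
  unfold dv1
  refine continuous_finsetSum _ fun j _ => Continuous.mul ?_ (FT_cont f a j k)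
  exact Complex.continuous_ofReal.comp (by fun_prop)

lemma cs_le (f : TestForm n d) (a : Fin n) (k : Fin d) (p : Eu d) :
    ‖dv1 f a k p‖ ^ 2 / ‖p‖ ^ 2 ≤ ∑ j, ‖FT (f.f a j k) p‖ ^ 2 := by
  by_cases hp : p = 0
  · subst hp
    rw [norm_zero, zero_pow two_ne_zero, div_zero]
    exact Finset.sum_nonneg fun _ _ => sq_nonneg _
  · have hpn : 0 < ‖p‖ := norm_pos_iff.2 hp
    rw [div_le_iff₀ (by positivity)]
    have h1 : ‖dv1 f a k p‖ ≤ ∑ j, |p j| * ‖FT (f.f a j k) p‖ := by
      unfold dv1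
      refine (norm_sum_le _ _).trans (le_of_eq (Finset.sum_congr rfl fun j _ => ?_))
      rw [norm_mul, Complex.norm_real, Real.norm_eq_abs]
    have h2 := Finset.sum_mul_sq_le_sq_mul_sq Finset.univ (fun j => |p j|)
      (fun j => ‖FT (f.f a j k) p‖)
    have h3 : ∑ j, |p j| ^ 2 = ‖p‖ ^ 2 := by
      rw [← norm_sq_sum]
      exact Finset.sum_congr rfl fun j _ => sq_abs _
    calc ‖dv1 f a k p‖ ^ 2 ≤ (∑ j, |p j| * ‖FT (f.f a j k) p‖) ^ 2 :=
          pow_le_pow_left₀ (norm_nonneg _) h1 2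
      _ ≤ _ := h2
      _ = _ := by rw [h3, mul_comm]

lemma YM_meas (f : TestForm n d) : AEStronglyMeasurable (YM f) := by
  have h1 : Measurable (YM f) := by
    have h2 : Measurable fun p : Eu d => fun q : Fin n × Fin d => dv1 f q.1 q.2 p / (‖p‖ : ℂ) :=
      measurable_pi_lambda _ fun q => (dv1_cont f q.1 q.2).measurable.div
        (Complex.measurable_ofReal.comp measurable_norm)
    exact (WithLp.measurable_toLp 2 (Fin n × Fin d → ℂ)).comp h2
  exact h1.aestronglyMeasurable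

lemma term_int (f : TestForm n d) (a : Fin n) (k : Fin d) :
    Integrable fun p => ‖dv1 f a k p‖ ^ 2 / ‖p‖ ^ 2 := by
  have h1 : Integrable fun p => ∑ j, ‖FT (f.f a j k) p‖ ^ 2 :=
    integrable_finsetSum _ fun j _ => FT_sq_int f a j k
  refine h1.mono' ?_ (Eventually.of_forall fun p => ?_)
  · exact (((dv1_cont f a k).measurable.norm.pow_const 2).div
      (measurable_norm.pow_const 2)).aestronglyMeasurable
  · rw [Real.norm_eq_abs, abs_of_nonneg (by positivity)]
    exact cs_le f a k p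

lemma YM_sq_int (f : TestForm n d) : Integrable fun p => ‖YM f p‖ ^ 2 := by
  simp only [norm_YM]
  exact integrable_finsetSum _ fun a _ => integrable_finsetSum _ fun k _ => term_int f a k

lemma YM_memLp (f : TestForm n d) : MemLp (YM f) 2 := by
  rw [← memLp_norm_iff (YM_meas f), memLp_two_iff_integrable_sq (YM_meas f).norm]
  exact YM_sq_int f

lemma vM_eq (f : TestForm n d) : vM f = ∫ p, ‖YM f p‖ ^ 2 := by
  simp only [norm_YM]
  rw [integral_finsetSum _ fun a _ => integrable_finsetSum _ fun k _ => term_int f a k]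
  unfold vM
  refine Finset.sum_congr rfl fun a _ => ?_
  rw [integral_finsetSum _ fun k _ => term_int f a k]

lemma vM_nonneg (f : TestForm n d) : 0 ≤ vM f := by
  rw [vM_eq]
  exact integral_nonneg fun p => sq_nonneg _

lemma vM_le (f : TestForm n d) : vM f ≤ ∑ a, ∑ j, ∑ k, ∫ x, f.f a j k x ^ 2 := by
  unfold vM
  refine Finset.sum_le_sum fun a _ => ?_
  rw [Finset.sum_comm (s := Finset.univ) (t := Finset.univ)
    (f := fun j k => ∫ x, f.f a j k x ^ 2)]
  refine Finset.sum_le_sum fun k _ => ?_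
  have h1 : ∀ j, ∫ x, f.f a j k x ^ 2 = ∫ p, ‖FT (f.f a j k) p‖ ^ 2 := fun j =>
    planch (f.smooth a j k) (f.compact a j k)
  rw [Finset.sum_congr rfl fun j _ => h1 j, ← integral_finsetSum _ fun j _ => FT_sq_int f a j k]
  exact integral_mono (term_int f a k) (integrable_finsetSum _ fun j _ => FT_sq_int f a j k)
    fun p => cs_le f a k p

/-- difference of forms -/
def TestForm.sub (f g : TestForm n d) : TestForm n d where
  f a j k x := f.f a j k x - g.f a j k x
  smooth a j k := (f.smooth a j k).sub (g.smooth a j k)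
  compact a j k := (f.compact a j k).sub (g.compact a j k)
  anti a j k x := by rw [f.anti a j k, g.anti a j k]; ring

lemma YM_sub (f g : TestForm n d) (p : Eu d) : YM (f.sub g) p = YM f p - YM g p := by
  have h1 : ∀ a j k, FT ((f.sub g).f a j k) p = FT (f.f a j k) p - FT (g.f a j k) p := by
    intro a j k
    have e : (f.sub g).f a j k = fun x => f.f a j k x + -g.f a j k x := by
      funext x; exact sub_eq_add_neg _ _
    rw [e, FT_add (f.smooth a j k) (f.compact a j k) (g.smooth a j k).neg (g.compact a j k).neg,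
      FT_neg, sub_eq_add_neg]
  ext q
  show dv1 (f.sub g) q.1 q.2 p / (‖p‖ : ℂ) = dv1 f q.1 q.2 p / (‖p‖ : ℂ) -
    dv1 g q.1 q.2 p / (‖p‖ : ℂ)
  unfold dv1
  simp only [h1, mul_sub, Finset.sum_sub_distrib, sub_div]

/-- minus the Laplace operator of a form -/
def TestForm.mlap (f : TestForm n d) : TestForm n d where
  f a j k x := -Lc (f.f a j k) x
  smooth a j k := (Smo.Lc (f.smooth a j k)).neg
  compact a j k := (Lc_compact (f.compact a j k)).neg
  anti a j k x := by
    have h1 : f.f a j k = fun x => -f.f a k j x := funext fun x => f.anti a j k x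
    rw [h1, Lc_neg]

/-- the divergence of a form -/
def dvg (f : TestForm n d) (a : Fin n) (k : Fin d) : Eu d → ℝ := fun x =>
  ∑ i, pd i (f.f a i k) x

/-- the exact part of minus the Laplace operator -/
def DDf (f : TestForm n d) (a : Fin n) (j k : Fin d) : Eu d → ℝ := fun x =>
  -(pd j (dvg f a k) x - pd k (dvg f a j) x)

lemma dvg_smooth (f : TestForm n d) (a : Fin n) (k : Fin d) : Smo (dvg f a k) :=
  ContDiff.sum fun i _ => Smo.pd (f.smooth a i k) i

lemma dvg_compact (f : TestForm n d) (a : Fin n) (k : Fin d) : HasCompactSupport (dvg f a k) :=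
  sum_compact _ fun i => HasCompactSupport.pd (f.compact a i k) i

lemma DDf_smooth (f : TestForm n d) (a : Fin n) (j k : Fin d) : Smo (DDf f a j k) :=
  ((Smo.pd (dvg_smooth f a k) j).sub (Smo.pd (dvg_smooth f a j) k)).neg

lemma DDf_compact (f : TestForm n d) (a : Fin n) (j k : Fin d) :
    HasCompactSupport (DDf f a j k) :=
  ((HasCompactSupport.pd (dvg_compact f a k) j).sub
    (HasCompactSupport.pd (dvg_compact f a j) k)).neg

lemma FT_dvg (f : TestForm n d) (a : Fin n) (k : Fin d) (p : Eu d) :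
    FT (dvg f a k) p = 2 * Real.pi * Complex.I * dv1 f a k p := by
  unfold dvg
  rw [FT_sum _ (fun i => Smo.pd (f.smooth a i k) i)
    (fun i => HasCompactSupport.pd (f.compact a i k) i)]
  unfold dv1
  rw [Finset.mul_sum]
  refine Finset.sum_congr rfl fun i _ => ?_
  rw [FT_pd (f.smooth a i k) (f.compact a i k)]
  ring

lemma FT_DDf (f : TestForm n d) (a : Fin n) (j k : Fin d) (p : Eu d) :
    FT (DDf f a j k) p = 4 * Real.pi ^ 2 * ((p j : ℂ) * dv1 f a k p - (p k : ℂ) * dv1 f a j p) := by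
  have e : DDf f a j k = fun x => -(pd j (dvg f a k) x + -pd k (dvg f a j) x) := by
    funext x; unfold DDf; ring
  rw [e, FT_neg, FT_add (Smo.pd (dvg_smooth f a k) j)
    (HasCompactSupport.pd (dvg_compact f a k) j) (Smo.pd (dvg_smooth f a j) k).neg
    (HasCompactSupport.pd (dvg_compact f a j) k).neg, FT_neg,
    FT_pd (dvg_smooth f a k) (dvg_compact f a k), FT_pd (dvg_smooth f a j) (dvg_compact f a j),
    FT_dvg, FT_dvg]
  have h6 := Complex.I_sq
  linear_combination (-4 * (Real.pi : ℂ) ^ 2 * ((p j : ℂ) * dv1 f a k p -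
    (p k : ℂ) * dv1 f a j p)) * h6

lemma FT_mlap (f : TestForm n d) (a : Fin n) (j k : Fin d) (p : Eu d) :
    FT (f.mlap.f a j k) p = ((4 * Real.pi ^ 2 * ‖p‖ ^ 2 : ℝ) : ℂ) * FT (f.f a j k) p := by
  have e : f.mlap.f a j k = fun x => -Lc (f.f a j k) x := rfl
  rw [e, FT_neg]
  unfold Lc
  rw [FT_sum _ (fun i => Smo.pd (Smo.pd (f.smooth a j k) i) i)
    (fun i => HasCompactSupport.pd (HasCompactSupport.pd (f.compact a j k) i) i)]
  have h1 : ∀ i, FT (pd i (pd i (f.f a j k))) p =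
      ((p i ^ 2 : ℝ) : ℂ) * (-(4 * (Real.pi : ℂ) ^ 2) * FT (f.f a j k) p) := by
    intro i
    rw [FT_pd (Smo.pd (f.smooth a j k) i) (HasCompactSupport.pd (f.compact a j k) i),
      FT_pd (f.smooth a j k) (f.compact a j k)]
    have h6 := Complex.I_sq
    push_cast
    linear_combination (4 * (Real.pi : ℂ) ^ 2 * (p i : ℂ) ^ 2 * FT (f.f a j k) p) * h6
  rw [Finset.sum_congr rfl fun i _ => h1 i, ← Finset.sum_mul, ← Complex.ofReal_sum,
    norm_sq_sum]
  push_cast
  ring

lemma FT_anti (f : TestForm n d) (a : Fin n) (j k : Fin d) (p : Eu d) :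
    FT (f.f a j k) p = -FT (f.f a k j) p := by
  have h1 : f.f a j k = fun x => -f.f a k j x := funext fun x => f.anti a j k x
  rw [h1, FT_neg]

/-- the divergence of the divergence vanishes -/
lemma dv1_zero (f : TestForm n d) (a : Fin n) (p : Eu d) : ∑ k, (p k : ℂ) * dv1 f a k p = 0 := by
  obtain ⟨S, hS⟩ : ∃ S : ℂ, S = ∑ k, ∑ j, (p k : ℂ) * ((p j : ℂ) * FT (f.f a j k) p) := ⟨_, rfl⟩
  have h1 : ∑ k, (p k : ℂ) * dv1 f a k p = S := by
    rw [hS]
    refine Finset.sum_congr rfl fun k _ => ?_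
    unfold dv1
    rw [Finset.mul_sum]
  have h2 : S = -S := by
    calc S = ∑ j, ∑ k, (p k : ℂ) * ((p j : ℂ) * FT (f.f a j k) p) := by
          rw [hS, Finset.sum_comm]
      _ = ∑ j, ∑ k, -((p j : ℂ) * ((p k : ℂ) * FT (f.f a k j) p)) := by
          refine Finset.sum_congr rfl fun j _ => Finset.sum_congr rfl fun k _ => ?_
          rw [FT_anti f a j k]
          ring
      _ = -S := by rw [hS]; simp only [Finset.sum_neg_distrib]
  rw [h1]
  have h3 : (2 : ℂ) * S = 0 := by linear_combination h2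
  exact (mul_eq_zero.1 h3).resolve_left two_ne_zero

/-- a vector identity -/
lemma cross_sum (p : Fin d → ℝ) (w : Fin d → ℂ) (h : ∑ k, (p k : ℂ) * w k = 0) :
    ∑ j, ∑ k, ‖(p j : ℂ) * w k - (p k : ℂ) * w j‖ ^ 2 =
      2 * ((∑ j, p j ^ 2) * ∑ k, ‖w k‖ ^ 2) := by
  have h1 : ∀ j k, ‖(p j : ℂ) * w k - (p k : ℂ) * w j‖ ^ 2 =
      p j ^ 2 * ‖w k‖ ^ 2 + p k ^ 2 * ‖w j‖ ^ 2 -
        2 * ((((p j : ℂ) * w j) * (starRingEnd ℂ) ((p k : ℂ) * w k)).re) := by
    intro j k
    rw [← Complex.normSq_eq_norm_sq, ← Complex.normSq_eq_norm_sq, ← Complex.normSq_eq_norm_sq,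
      Complex.normSq_apply, Complex.normSq_apply, Complex.normSq_apply]
    simp only [Complex.sub_re, Complex.sub_im, Complex.mul_re, Complex.mul_im, Complex.ofReal_re,
      Complex.ofReal_im, Complex.conj_re, Complex.conj_im, zero_mul, sub_zero, add_zero]
    ring
  simp only [h1, Finset.sum_sub_distrib, Finset.sum_add_distrib]
  have h2 : ∑ j, ∑ k, p j ^ 2 * ‖w k‖ ^ 2 = (∑ j, p j ^ 2) * ∑ k, ‖w k‖ ^ 2 := by
    rw [Finset.sum_mul_sum]
  have h3 : ∑ j, ∑ k, p k ^ 2 * ‖w j‖ ^ 2 = (∑ j, p j ^ 2) * ∑ k, ‖w k‖ ^ 2 := by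
    rw [Finset.sum_comm, ← h2]
  have h4 : ∑ j, ∑ k, 2 * ((((p j : ℂ) * w j) * (starRingEnd ℂ) ((p k : ℂ) * w k)).re) = 0 := by
    have h5 : ∀ j, ∑ k, 2 * ((((p j : ℂ) * w j) * (starRingEnd ℂ) ((p k : ℂ) * w k)).re) =
        2 * ((((p j : ℂ) * w j) * (starRingEnd ℂ) (∑ k, (p k : ℂ) * w k)).re) := by
      intro j
      rw [map_sum, Finset.mul_sum, Complex.re_sum, Finset.mul_sum]
    simp only [h5, h, map_zero, mul_zero, Complex.zero_re, Finset.sum_const_zero]
  rw [h2, h3, h4]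
  ring

lemma vM_mlap (f : TestForm n d) : 2 * vM f.mlap = ∑ a, ∑ j, ∑ k, ∫ x, DDf f a j k x ^ 2 := by
  have hi : ∀ a j k, Integrable fun p => ‖FT (DDf f a j k) p‖ ^ 2 := fun a j k => by
    rw [FT_sw (DDf_smooth f a j k) (DDf_compact f a j k)]
    exact (SchwartzMap.memLp _ 2 (volume : Measure (Eu d))).integrable_norm_pow (by norm_num)
  unfold vM
  rw [Finset.mul_sum]
  refine Finset.sum_congr rfl fun a _ => ?_
  have h1 : ∀ j k, ∫ x, DDf f a j k x ^ 2 = ∫ p, ‖FT (DDf f a j k) p‖ ^ 2 := fun j k =>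
    planch (DDf_smooth f a j k) (DDf_compact f a j k)
  have h2 : ∑ j, ∑ k, ∫ x, DDf f a j k x ^ 2 = ∫ p, ∑ j, ∑ k, ‖FT (DDf f a j k) p‖ ^ 2 := by
    rw [integral_finsetSum _ fun j _ => integrable_finsetSum _ fun k _ => hi a j k]
    refine Finset.sum_congr rfl fun j _ => ?_
    rw [integral_finsetSum _ fun k _ => hi a j k]
    exact Finset.sum_congr rfl fun k _ => h1 j k
  rw [h2, ← integral_finsetSum _ fun k _ => term_int f.mlap a k, ← integral_const_mul]
  refine integral_congr_ae (Eventually.of_forall fun p => ?_)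
  simp only
  have h3 : ∀ j k, ‖FT (DDf f a j k) p‖ ^ 2 = (4 * Real.pi ^ 2) ^ 2 *
      ‖(p j : ℂ) * dv1 f a k p - (p k : ℂ) * dv1 f a j p‖ ^ 2 := by
    intro j k
    rw [FT_DDf, norm_mul, mul_pow]
    congr 2
    have : (4 * (Real.pi : ℂ) ^ 2) = ((4 * Real.pi ^ 2 : ℝ) : ℂ) := by push_cast; ring
    rw [this, Complex.norm_real, Real.norm_eq_abs, abs_of_nonneg (by positivity)]
  simp only [h3, ← Finset.mul_sum]
  rw [cross_sum (fun j => p j) (fun k => dv1 f a k p) (dv1_zero f a p), norm_sq_sum]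
  have h4 : ∀ k, dv1 f.mlap a k p = ((4 * Real.pi ^ 2 * ‖p‖ ^ 2 : ℝ) : ℂ) * dv1 f a k p := by
    intro k
    unfold dv1
    rw [Finset.mul_sum]
    refine Finset.sum_congr rfl fun j _ => ?_
    rw [FT_mlap]
    ring
  have h5 : ∀ k, ‖dv1 f.mlap a k p‖ ^ 2 / ‖p‖ ^ 2 =
      (4 * Real.pi ^ 2) ^ 2 * (‖p‖ ^ 2 * ‖dv1 f a k p‖ ^ 2) := by
    intro k
    rw [h4, norm_mul, Complex.norm_real, Real.norm_eq_abs, abs_of_nonneg (by positivity)]
    by_cases hp : ‖p‖ = 0
    · rw [hp]; simp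
    · field_simp
  simp only [h5, ← Finset.mul_sum]
  ring

/-- **the Hodge decomposition** -/
theorem hodge (hd : 0 < d) (f : TestForm n d) {ε : ℝ} (hε : 0 < ε) : ∃ ψ : TestForm n d,
    ∑ a, ∑ j, ∑ k, ∫ x, (f.f a j k x + Lc (ψ.f a j k) x) ^ 2 ≤ ε ^ 2 ∧
    |Real.sqrt (vM f) - Real.sqrt (1 / 2 * ∑ a, ∑ j, ∑ k, ∫ x, DDf ψ a j k x ^ 2)| ≤ ε := by
  obtain ⟨c, hc⟩ : ∃ c : ℝ, c = ε ^ 2 / (n * d * d + 1) := ⟨_, rfl⟩
  have hc0 : 0 < c := by rw [hc]; positivity
  have h1 : ∀ a j k, ∃ ψ : Eu d → ℝ, Smo ψ ∧ HasCompactSupport ψ ∧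
      ∫ x, (f.f a j k x + Lc ψ x) ^ 2 ≤ c := fun a j k =>
    lap_dense hd (f.smooth a j k) (f.compact a j k) hc0
  choose q hq1 hq2 hq3 using h1
  let ψ : TestForm n d :=
    { f := fun a j k x => if j < k then q a j k x else if k < j then -q a k j x else 0
      smooth := fun a j k => by
        rcases lt_trichotomy j k with h | h | h
        · simp only [if_pos h]; exact hq1 a j k
        · subst h; simp only [lt_irrefl, if_false]; exact contDiff_const
        · simp only [if_neg (not_lt.2 h.le), if_pos h]; exact (hq1 a k j).neg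
      compact := fun a j k => by
        rcases lt_trichotomy j k with h | h | h
        · simp only [if_pos h]; exact hq2 a j k
        · subst h; simp only [lt_irrefl, if_false]; exact HasCompactSupport.zero
        · simp only [if_neg (not_lt.2 h.le), if_pos h]; exact (hq2 a k j).neg
      anti := fun a j k x => by
        rcases lt_trichotomy j k with h | h | h
        · simp only [if_pos h, if_neg (not_lt.2 h.le)]; ring
        · subst h; simp
        · simp only [if_neg (not_lt.2 h.le), if_pos h] }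
  have hψ : ∀ a j k, ∫ x, (f.f a j k x + Lc (ψ.f a j k) x) ^ 2 ≤ c := by
    intro a j k
    rcases lt_trichotomy j k with h | h | h
    · have e : ψ.f a j k = q a j k := by funext x; exact if_pos h
      rw [e]; exact hq3 a j k
    · subst h
      have e : ψ.f a j j = fun _ => 0 := by
        funext x
        show (if j < j then _ else if j < j then _ else (0 : ℝ)) = 0
        simp
      have e2 : ∀ x, f.f a j j x = 0 := fun x => by have := f.anti a j j x; linarith
      rw [e]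
      unfold Lc
      simp only [e2, pd_zero, Finset.sum_const_zero]
      simpa using hc0.le
    · have e : ψ.f a j k = fun x => -q a k j x := by
        funext x
        show (if j < k then _ else if k < j then _ else (0 : ℝ)) = _
        rw [if_neg (not_lt.2 h.le), if_pos h]
      rw [e, Lc_neg]
      have e2 : ∀ x, (f.f a j k x + -Lc (q a k j) x) ^ 2 = (f.f a k j x + Lc (q a k j) x) ^ 2 :=
        fun x => by rw [f.anti a j k x]; ring
      simp only [e2]
      exact hq3 a k j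
  have hsum : ∑ a, ∑ j, ∑ k, ∫ x, (f.f a j k x + Lc (ψ.f a j k) x) ^ 2 ≤ ε ^ 2 := by
    calc _ ≤ ∑ _a : Fin n, ∑ _j : Fin d, ∑ _k : Fin d, c :=
          Finset.sum_le_sum fun a _ => Finset.sum_le_sum fun j _ => Finset.sum_le_sum
            fun k _ => hψ a j k
      _ = n * d * d * c := by
          simp only [Finset.sum_const, Finset.card_univ, Fintype.card_fin, nsmul_eq_mul]
          ring
      _ ≤ ε ^ 2 := by
          rw [hc, ← mul_div_assoc, div_le_iff₀ (by positivity)]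
          have : 0 ≤ ε ^ 2 := sq_nonneg ε
          nlinarith
  refine ⟨ψ, hsum, ?_⟩
  have h2 : 1 / 2 * ∑ a, ∑ j, ∑ k, ∫ x, DDf ψ a j k x ^ 2 = vM ψ.mlap := by
    rw [← vM_mlap]; ring
  rw [h2, vM_eq f, vM_eq ψ.mlap]
  refine (l2_tri (YM_memLp f) (YM_memLp ψ.mlap)).trans ?_
  have h3 : ∫ p, ‖YM f p - YM ψ.mlap p‖ ^ 2 = vM (f.sub ψ.mlap) := by
    rw [vM_eq]
    simp only [YM_sub]
  rw [h3]
  have h4 := vM_le (f.sub ψ.mlap)
  have h5 : ∑ a, ∑ j, ∑ k, ∫ x, (f.sub ψ.mlap).f a j k x ^ 2 =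
      ∑ a, ∑ j, ∑ k, ∫ x, (f.f a j k x + Lc (ψ.f a j k) x) ^ 2 := by
    refine Finset.sum_congr rfl fun a _ => Finset.sum_congr rfl fun j _ =>
      Finset.sum_congr rfl fun k _ => ?_
    refine integral_congr_ae (Eventually.of_forall fun x => ?_)
    show (f.f a j k x - -Lc (ψ.f a j k) x) ^ 2 = _
    rw [sub_neg_eq_add]
  rw [h5] at h4
  calc Real.sqrt (vM (f.sub ψ.mlap)) ≤ Real.sqrt (ε ^ 2) := Real.sqrt_le_sqrt (h4.trans hsum)
    _ = ε := Real.sqrt_sq hε.le

end

end Pool.Agent.U322.FL
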