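import Mathlib
import Pool.Agent.W793.YM.Rebase

/-!
# Free continuum limit of lattice Yang-Mills: the projection on the exact forms
-/

open MeasureTheory Matrix
open Pool.Agent.H906R3.YM Pool.Agent.W793.YM

namespace Pool.Agent.U322.FL

set_option linter.unusedSectionVars false
set_option linter.unusedVariables false

noncomputable section

variable {n d l : ℕ} [NeZero l]

/-- index set of the components of `n` two forms -/
abbrev Ix (n d l : ℕ) := Fin n × Fin d × Fin d × St d l

/-- the components as a vector -/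
def vc (f : Fin n → Fm d l) : EuclideanSpace ℝ (Ix n d l) :=
  WithLp.toLp 2 fun p => f p.1 p.2.1 p.2.2.1 p.2.2.2

lemma vc_add (f g : Fin n → Fm d l) : vc (f + g) = vc f + vc g := by
  ext p; rfl

lemma vc_sub (f g : Fin n → Fm d l) : vc (f - g) = vc f - vc g := by
  ext p; rfl

lemma norm_vc_sq (f : Fin n → Fm d l) : ‖vc f‖ ^ 2 = N2 f := by
  rw [EuclideanSpace.norm_sq_eq]
  unfold N2
  rw [Fintype.sum_prod_type]
  refine Finset.sum_congr rfl fun a _ => ?_
  rw [Fintype.sum_prod_type]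
  refine Finset.sum_congr rfl fun j _ => ?_
  rw [Fintype.sum_prod_type]
  refine Finset.sum_congr rfl fun k _ => ?_
  refine Finset.sum_congr rfl fun x _ => ?_
  rw [Real.norm_eq_abs, sq_abs]
  rfl

lemma norm_vc (f : Fin n → Fm d l) : ‖vc f‖ = Real.sqrt (N2 f) := by
  rw [← norm_vc_sq, Real.sqrt_sq (norm_nonneg _)]

/-- scalar product of `n` two forms -/
def ipn (f g : Fin n → Fm d l) : ℝ := ∑ a, ipF (f a) (g a)

lemma ipn_vc (f g : Fin n → Fm d l) : ipn f g = 1 / 2 * inner ℝ (vc f) (vc g) := by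
  unfold ipn ipF ip2
  rw [PiLp.inner_apply, Fintype.sum_prod_type, Finset.mul_sum]
  refine Finset.sum_congr rfl fun a _ => ?_
  rw [Fintype.sum_prod_type]
  congr 1
  refine Finset.sum_congr rfl fun j _ => ?_
  rw [Fintype.sum_prod_type]
  refine Finset.sum_congr rfl fun k _ => ?_
  refine Finset.sum_congr rfl fun x _ => ?_
  show _ = inner ℝ (f a j k x) (g a j k x)
  rw [real_inner_eq_re_inner]
  simp [mul_comm]

lemma ipn_self (f : Fin n → Fm d l) : ipn f f = 1 / 2 * N2 f := by
  rw [ipn_vc, real_inner_self_eq_norm_sq, norm_vc_sq]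

lemma vK_eq' (K : ℕ) (f : Fin n → Fm d l) : vK K f = 1 / 2 * N2 (fun a => TL K (f a)) := by
  rw [vK_eq, ← ipn_self]
  rfl

/-- the Laplace operator on two forms -/
def lapn (u : Fin n → Fm d l) : Fin n → Fm d l := fun a j k => lap (u a j k)

/-- the exact part of the Laplace operator on two forms -/
def ex2 (u : Fin n → Fm d l) : Fin n → Fm d l := fun a => d1 (ds2 (u a))

/-- the projection on the exact forms -/
theorem proj {K : ℕ} {f u : Fin n → Fm d l} (hf : ∀ a, Asy (f a)) (hu : ∀ a, Asy (u a)) :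
    |Real.sqrt (N2 (fun a => TL K (f a))) - Real.sqrt (N2 (ex2 u))| ≤
      Real.sqrt (N2 (f - lapn u)) + Real.sqrt (N2 (Pks K f)) := by
  obtain ⟨D, hD⟩ : ∃ D : Fin n → Fm d l, D = (fun a => TL K (f a)) - ex2 u := ⟨_, rfl⟩
  obtain ⟨C, hC⟩ : ∃ C : Fin n → Fm d l, C = (fun a => cx (uKs K f a)) - fun a => cx (u a) :=
    ⟨_, rfl⟩
  have hsum : D + C = f - lapn u - Pks K f := by
    have h1 := dec K f
    funext a j k
    have h2 : f a j k = Pks K f a j k + d1 (AK K f a) j k + cx (uKs K f a) j k :=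
      congrFun (congrFun (congrFun h1 a) j) k
    have h3 : cx (u a) j k = lap (u a j k) - d1 (ds2 (u a)) j k := rfl
    rw [hD, hC]
    show TL K (f a) j k - ex2 u a j k + (cx (uKs K f a) j k - cx (u a) j k) =
      f a j k - lapn u a j k - Pks K f a j k
    rw [h2, h3]
    show d1 (AK K f a) j k - d1 (ds2 (u a)) j k + _ = _ - lap (u a j k) - _
    abel
  have horth : ipn C D = 0 := by
    unfold ipn
    refine Finset.sum_eq_zero fun a _ => ?_
    have e1 : D a = d1 (AK K f a - ds2 (u a)) := by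
      rw [hD]
      funext j k
      show d1 (AK K f a) j k - d1 (ds2 (u a)) j k = _
      unfold d1
      simp only [Pi.sub_apply, Dp_sub]
      abel
    have e2 : C a = cx (uKs K f a) - cx (u a) := by rw [hC]; rfl
    rw [e1, e2, ipF_sub_left, cx_orth (uKs_asy hf a), cx_orth (hu a), sub_zero]
  have h1 : N2 D ≤ Real.sqrt (N2 (f - lapn u - Pks K f)) * Real.sqrt (N2 D) := by
    have e1 : ipn (D + C) D = ipn D D := by
      have : ipn (D + C) D = ipn D D + ipn C D := by
        rw [ipn_vc, ipn_vc, ipn_vc, vc_add, inner_add_left]; ring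
      rw [this, horth, add_zero]
    have e3 : N2 D = inner ℝ (vc (D + C)) (vc D) := by
      have e4 := ipn_self D
      rw [← e1, ipn_vc] at e4
      linarith
    calc N2 D = inner ℝ (vc (D + C)) (vc D) := e3
      _ ≤ ‖vc (D + C)‖ * ‖vc D‖ := real_inner_le_norm _ _
      _ = _ := by rw [norm_vc, norm_vc, hsum]
  have h2 : Real.sqrt (N2 D) ≤ Real.sqrt (N2 (f - lapn u - Pks K f)) := by
    by_cases h0 : Real.sqrt (N2 D) = 0
    · rw [h0]; exact Real.sqrt_nonneg _
    · have h3 : 0 < Real.sqrt (N2 D) := lt_of_le_of_ne (Real.sqrt_nonneg _) (Ne.symm h0)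
      have h4 : Real.sqrt (N2 D) * Real.sqrt (N2 D) = N2 D := Real.mul_self_sqrt (N2_nonneg D)
      rw [← h4] at h1
      have h5 : Real.sqrt (N2 D) * Real.sqrt (N2 D) ≤
        Real.sqrt (N2 (f - lapn u - Pks K f)) * Real.sqrt (N2 D) := by
        rw [h4] at h1 ⊢
        exact h1
      exact le_of_mul_le_mul_right h5 h3
  have h3 : Real.sqrt (N2 (f - lapn u - Pks K f)) ≤
      Real.sqrt (N2 (f - lapn u)) + Real.sqrt (N2 (Pks K f)) := by
    rw [← norm_vc, ← norm_vc, ← norm_vc, vc_sub (f - lapn u)]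
    exact norm_sub_le _ _
  have h4 : |Real.sqrt (N2 (fun a => TL K (f a))) - Real.sqrt (N2 (ex2 u))| ≤
      Real.sqrt (N2 D) := by
    rw [← norm_vc, ← norm_vc, ← norm_vc, hD, vc_sub]
    exact abs_norm_sub_norm_le _ _
  exact h4.trans (h2.trans h3)

end

end Pool.Agent.U322.FL
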