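import Mathlib
import Pool.Agent.U322.FL.Pd

/-!
# Free continuum limit of lattice Yang-Mills: Riemann sums and finite differences
-/

open MeasureTheory Filter
open scoped ContDiff Topology

namespace Pool.Agent.U322.FL

set_option linter.unusedSectionVars false
set_option linter.unusedVariables false

noncomputable section

variable {d : ℕ}

/-- The point `h z` of the lattice `h ℤ^d`. -/
def pt (h : ℝ) (z : Fin d → ℤ) : EuclideanSpace ℝ (Fin d) := WithLp.toLp 2 fun i => h * (z i : ℝ)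

/-- convergence of functions, uniformly bounded and of uniformly bounded support -/
structure Cv (g : ℝ → Eu d → ℝ) (g0 : Eu d → ℝ) : Prop where
  bdd : ∃ M : ℝ, ∀ h : ℝ, 0 < h → h ≤ 1 → ∀ x, |g h x| ≤ M
  supp : ∃ R : ℝ, ∀ h : ℝ, 0 < h → h ≤ 1 → ∀ x, R < ‖x‖ → g h x = 0
  lim : ∀ x, Tendsto (fun q : ℝ × Eu d => g q.1 q.2) (𝓝[>] 0 ×ˢ 𝓝 x) (𝓝 (g0 x))

lemma Cv.add {f g : ℝ → Eu d → ℝ} {f0 g0 : Eu d → ℝ} (hf : Cv f f0) (hg : Cv g g0) :
    Cv (fun h x => f h x + g h x) (fun x => f0 x + g0 x) where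
  bdd := by
    obtain ⟨M, hM⟩ := hf.bdd
    obtain ⟨M', hM'⟩ := hg.bdd
    exact ⟨M + M', fun h h0 h1 x => (abs_add_le _ _).trans (add_le_add (hM h h0 h1 x)
      (hM' h h0 h1 x))⟩
  supp := by
    obtain ⟨R, hR⟩ := hf.supp
    obtain ⟨R', hR'⟩ := hg.supp
    refine ⟨max R R', fun h h0 h1 x hx => ?_⟩
    rw [hR h h0 h1 x ((le_max_left _ _).trans_lt hx), hR' h h0 h1 x ((le_max_right _ _).trans_lt hx),
      add_zero]
  lim x := (hf.lim x).add (hg.lim x)

lemma Cv.neg {f : ℝ → Eu d → ℝ} {f0 : Eu d → ℝ} (hf : Cv f f0) :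
    Cv (fun h x => -f h x) (fun x => -f0 x) where
  bdd := by
    obtain ⟨M, hM⟩ := hf.bdd
    exact ⟨M, fun h h0 h1 x => by rw [abs_neg]; exact hM h h0 h1 x⟩
  supp := by
    obtain ⟨R, hR⟩ := hf.supp
    exact ⟨R, fun h h0 h1 x hx => by rw [hR h h0 h1 x hx, neg_zero]⟩
  lim x := (hf.lim x).neg

lemma Cv.sub {f g : ℝ → Eu d → ℝ} {f0 g0 : Eu d → ℝ} (hf : Cv f f0) (hg : Cv g g0) :
    Cv (fun h x => f h x - g h x) (fun x => f0 x - g0 x) := by
  simpa only [sub_eq_add_neg] using hf.add hg.neg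

lemma Cv.zero : Cv (fun _ _ => (0 : ℝ)) (fun _ : Eu d => (0 : ℝ)) where
  bdd := ⟨0, fun h _ _ x => by simp⟩
  supp := ⟨0, fun h _ _ x _ => rfl⟩
  lim x := tendsto_const_nhds

lemma Cv.sum {ι : Type*} (s : Finset ι) {f : ι → ℝ → Eu d → ℝ} {f0 : ι → Eu d → ℝ}
    (hf : ∀ k, Cv (f k) (f0 k)) : Cv (fun h x => ∑ k ∈ s, f k h x) (fun x => ∑ k ∈ s, f0 k x) := by
  classical
  induction s using Finset.induction_on with
  | empty => simpa using Cv.zero
  | insert a s ha ih =>
    have h := (hf a).add ih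
    simpa only [Finset.sum_insert ha] using h

lemma Cv.mul {f g : ℝ → Eu d → ℝ} {f0 g0 : Eu d → ℝ} (hf : Cv f f0) (hg : Cv g g0) :
    Cv (fun h x => f h x * g h x) (fun x => f0 x * g0 x) where
  bdd := by
    obtain ⟨M, hM⟩ := hf.bdd
    obtain ⟨M', hM'⟩ := hg.bdd
    refine ⟨|M| * |M'|, fun h h0 h1 x => ?_⟩
    rw [abs_mul]
    exact mul_le_mul ((hM h h0 h1 x).trans (le_abs_self _)) ((hM' h h0 h1 x).trans (le_abs_self _))
      (abs_nonneg _) (abs_nonneg _)
  supp := by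
    obtain ⟨R, hR⟩ := hf.supp
    exact ⟨R, fun h h0 h1 x hx => by rw [hR h h0 h1 x hx, zero_mul]⟩
  lim x := (hf.lim x).mul (hg.lim x)

lemma Cv.sq {f : ℝ → Eu d → ℝ} {f0 : Eu d → ℝ} (hf : Cv f f0) :
    Cv (fun h x => f h x ^ 2) (fun x => f0 x ^ 2) := by
  simpa only [pow_two] using hf.mul hf

/-- the point of the lattice below -/
def flr (h : ℝ) (y : Eu d) : Fin d → ℤ := fun i => ⌊y i / h⌋

lemma flr_meas (h : ℝ) : Measurable (flr h : Eu d → Fin d → ℤ) := by
  refine measurable_pi_lambda _ fun i => ?_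
  have : Measurable fun y : Eu d => y i := by fun_prop
  exact Int.measurable_floor.comp (this.div_const h)

/-- the cell of a lattice point -/
def cell (h : ℝ) (z : Fin d → ℤ) : Set (Eu d) := {y | flr h y = z}

lemma cell_meas (h : ℝ) (z : Fin d → ℤ) : MeasurableSet (cell h z : Set (Eu d)) :=
  flr_meas h (measurableSet_singleton z)

lemma cell_vol {h : ℝ} (hh : 0 < h) (z : Fin d → ℤ) :
    (volume : Measure (Eu d)).real (cell h z) = h ^ d := by
  have h1 : (volume : Measure (Eu d)) (cell h z) =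
      (volume : Measure (Fin d → ℝ)) (Set.pi Set.univ fun i => Set.Ico (h * z i) (h * z i + h)) := by
    rw [← (EuclideanSpace.volume_preserving_symm_measurableEquiv_toLp (Fin d)).measure_preimage
      (MeasurableSet.pi Set.countable_univ fun i _ => measurableSet_Ico).nullMeasurableSet]
    congr 1
    ext y
    simp only [cell, flr, Set.mem_ofPred_eq, Set.mem_preimage, Set.mem_pi, Set.mem_univ,
      true_implies, Set.mem_Ico, funext_iff]
    refine forall_congr' fun i => ?_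
    show ⌊y i / h⌋ = z i ↔ h * z i ≤ y i ∧ y i < h * z i + h
    rw [Int.floor_eq_iff, le_div_iff₀ hh, div_lt_iff₀ hh]
    constructor
    · rintro ⟨a, b⟩; constructor <;> nlinarith
    · rintro ⟨a, b⟩; constructor <;> nlinarith
  unfold Measure.real
  rw [h1, Real.volume_pi_Ico_toReal]
  · simp
  · intro i; show h * (z i : ℝ) ≤ h * z i + h; linarith

lemma pt_flr_dist {h : ℝ} (hh : 0 < h) (y : Eu d) : ‖pt h (flr h y) - y‖ ≤ Real.sqrt d * h := by
  rw [EuclideanSpace.norm_eq]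
  have h1 : ∑ i, ‖(pt h (flr h y) - y : Eu d) i‖ ^ 2 ≤ d * h ^ 2 := by
    calc _ ≤ ∑ _i : Fin d, h ^ 2 := by
          refine Finset.sum_le_sum fun i _ => pow_le_pow_left₀ (norm_nonneg _) ?_ 2
          show ‖h * ((⌊y i / h⌋ : ℤ) : ℝ) - y i‖ ≤ h
          have h2 := Int.floor_le (y i / h)
          have h3 := Int.lt_floor_add_one (y i / h)
          rw [le_div_iff₀ hh] at h2
          rw [div_lt_iff₀ hh] at h3
          rw [Real.norm_eq_abs, abs_le]
          constructor <;> nlinarith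
      _ = _ := by simp
  calc Real.sqrt (∑ i, ‖(pt h (flr h y) - y : Eu d) i‖ ^ 2) ≤ Real.sqrt (d * h ^ 2) :=
        Real.sqrt_le_sqrt h1
    _ = _ := by rw [Real.sqrt_mul (Nat.cast_nonneg d), Real.sqrt_sq hh.le]

/-- sums over the lattice as integrals -/
lemma sum_eq_integral {h : ℝ} (hh : 0 < h) {G : (Fin d → ℤ) → ℝ}
    (hG : Integrable fun y : Eu d => G (flr h y)) :
    ∫ y : Eu d, G (flr h y) = h ^ d * ∑' z, G z := by
  have hdis : Pairwise (Function.onFun Disjoint fun z : Fin d → ℤ => (cell h z : Set (Eu d))) := by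
    intro z z' hz
    rw [Function.onFun, Set.disjoint_left]
    intro y h1 h2
    exact hz (h1.symm.trans h2)
  have huni : (⋃ z : Fin d → ℤ, (cell h z : Set (Eu d))) = Set.univ := by
    rw [Set.eq_univ_iff_forall]
    intro y
    exact Set.mem_iUnion.2 ⟨flr h y, rfl⟩
  have h1 := hasSum_integral_iUnion (f := fun y : Eu d => G (flr h y)) (μ := volume)
    (fun z => cell_meas h z) hdis hG.integrableOn
  rw [huni, Measure.restrict_univ] at h1
  rw [← h1.tsum_eq, ← tsum_mul_left]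
  refine tsum_congr fun z => ?_
  have h2 : ∫ y in cell h z, G (flr h y) = ∫ y in cell h z, G z :=
    setIntegral_congr_fun (cell_meas h z) fun y hy => by
      have : flr h y = z := hy
      simp only [this]
  rw [h2, setIntegral_const, cell_vol hh, smul_eq_mul]

/-- **Riemann sums** -/
theorem riemann {g : ℝ → Eu d → ℝ} {g0 : Eu d → ℝ} (hg : Cv g g0) :
    Tendsto (fun h : ℝ => h ^ d * ∑' z : Fin d → ℤ, g h (pt h z)) (𝓝[>] 0) (𝓝 (∫ x, g0 x)) := by
  obtain ⟨M, hM⟩ := hg.bdd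
  obtain ⟨R, hR⟩ := hg.supp
  obtain ⟨B, hB⟩ : ∃ B : Eu d → ℝ, B = (Metric.closedBall (0 : Eu d) (R + Real.sqrt d)).indicator
    fun _ => |M| := ⟨_, rfl⟩
  have hBi : Integrable B := by
    rw [hB]
    refine (integrable_indicator_iff Metric.isClosed_closedBall.measurableSet).2 ?_
    exact integrableOn_const (isCompact_closedBall (0 : Eu d) _).measure_lt_top.ne
  have hbd : ∀ h : ℝ, 0 < h → h ≤ 1 → ∀ y : Eu d, ‖g h (pt h (flr h y))‖ ≤ B y := by
    intro h h0 h1 y
    by_cases hy : y ∈ Metric.closedBall (0 : Eu d) (R + Real.sqrt d)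
    · rw [hB, Set.indicator_of_mem hy]
      exact (hM h h0 h1 _).trans (le_abs_self M)
    · rw [hB, Set.indicator_of_notMem hy, hR h h0 h1, norm_zero]
      rw [mem_closedBall_zero_iff, not_le] at hy
      have h2 := pt_flr_dist h0 y
      have h3 : ‖y‖ ≤ ‖pt h (flr h y)‖ + ‖pt h (flr h y) - y‖ := by
        have := norm_sub_le (pt h (flr h y)) (pt h (flr h y) - y)
        rw [sub_sub_cancel] at this
        exact this
      have h4 : Real.sqrt d * h ≤ Real.sqrt d := mul_le_of_le_one_right (Real.sqrt_nonneg _) h1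
      linarith
  have hms : ∀ h : ℝ, AEStronglyMeasurable (fun y : Eu d => g h (pt h (flr h y))) := fun h =>
    ((Measurable.of_discrete (f := fun z : Fin d → ℤ => g h (pt h z))).comp
      (flr_meas h)).aestronglyMeasurable
  have hint : ∀ h : ℝ, 0 < h → h ≤ 1 → Integrable fun y : Eu d => g h (pt h (flr h y)) :=
    fun h h0 h1 => hBi.mono' (hms h) (Eventually.of_forall fun y => hbd h h0 h1 y)
  have hev : ∀ᶠ h : ℝ in 𝓝[>] 0, 0 < h ∧ h ≤ 1 := Ioc_mem_nhdsGT zero_lt_one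
  have key : Tendsto (fun h : ℝ => ∫ y : Eu d, g h (pt h (flr h y))) (𝓝[>] 0)
      (𝓝 (∫ x, g0 x)) := by
    refine tendsto_integral_filter_of_dominated_convergence B
      (Eventually.of_forall fun h => hms h) ?_ hBi ?_
    · exact hev.mono fun h hh => Eventually.of_forall fun y => hbd h hh.1 hh.2 y
    · refine Eventually.of_forall fun y => ?_
      have h1 : Tendsto (fun h : ℝ => (h, pt h (flr h y))) (𝓝[>] 0) (𝓝[>] 0 ×ˢ 𝓝 y) := by
        refine tendsto_id.prodMk ?_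
        rw [tendsto_iff_norm_sub_tendsto_zero]
        have h2 : Tendsto (fun h : ℝ => Real.sqrt d * h) (𝓝[>] 0) (𝓝 0) := by
          have : Tendsto (fun h : ℝ => Real.sqrt d * h) (𝓝 0) (𝓝 0) :=
            (continuous_const.mul continuous_id).tendsto' 0 0 (by simp)
          exact this.mono_left nhdsWithin_le_nhds
        refine squeeze_zero' (Eventually.of_forall fun h => norm_nonneg _) ?_ h2
        filter_upwards [self_mem_nhdsWithin] with h hh
        exact pt_flr_dist hh y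
      exact (hg.lim y).comp h1
  refine key.congr' ?_
  filter_upwards [hev] with h hh
  exact sum_eq_integral hh.1 (G := fun z => g h (pt h z)) (hint h hh.1 hh.2)

/-! ### finite differences -/

/-- forward difference -/
def dp (h : ℝ) (i : Fin d) (g : Eu d → ℝ) : Eu d → ℝ := fun x => g (x + h • e1 i) - g x

lemma norm_e1 (i : Fin d) : ‖(e1 i : Eu d)‖ = 1 := by
  unfold e1; simp

/-- the mean value theorem -/
lemma dp_mv {g : Eu d → ℝ} (hg : Smo g) (h : ℝ) (i : Fin d) (x : Eu d) :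
    ∃ y, ‖y - x‖ ≤ |h| ∧ dp h i g x = h * pd i g y := by
  obtain ⟨f, hf⟩ : ∃ f : ℝ → ℝ, f = fun t => g (x + t • (h • e1 i)) := ⟨_, rfl⟩
  have hd : ∀ t, HasDerivAt f (h * pd i g (x + t • (h • e1 i))) t := by
    intro t
    have h1 : HasDerivAt (fun t : ℝ => x + t • (h • e1 i)) (h • e1 i : Eu d) t := by
      have := ((hasDerivAt_id t).smul_const (h • e1 i : Eu d)).const_add x
      simpa using this
    have h2 := (hg.diff (x + t • (h • e1 i))).hasFDerivAt.comp_hasDerivAt t h1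
    rw [hf]
    convert! h2 using 1
    unfold pd
    simp
  obtain ⟨t, ht, ht'⟩ := exists_hasDerivAt_eq_slope f (fun t => h * pd i g (x + t • (h • e1 i)))
    zero_lt_one (fun t _ => (hd t).continuousAt.continuousWithinAt) fun t _ => hd t
  refine ⟨x + t • (h • e1 i), ?_, ?_⟩
  · rw [add_sub_cancel_left, norm_smul, norm_smul, norm_e1, mul_one, Real.norm_eq_abs,
      Real.norm_eq_abs, abs_of_pos ht.1]
    exact mul_le_of_le_one_left (abs_nonneg _) ht.2.le
  · rw [ht', hf]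
    unfold dp
    simp

lemma dp_pd {g : Eu d → ℝ} (hg : Smo g) (h : ℝ) (i j : Fin d) :
    pd j (dp h i g) = dp h i (pd j g) := by
  funext x
  have h1 : Smo fun y : Eu d => g (y + h • e1 i) := hg.comp (contDiff_id.add contDiff_const)
  unfold dp
  rw [pd_sub h1 hg]
  have h2 : pd j (fun y : Eu d => g (y + h • e1 i)) x = pd j g (x + h • e1 i) := by
    unfold pd
    rw [fderiv_comp_add_right]
  show pd j (fun y : Eu d => g (y + h • e1 i)) x - pd j g x = _
  rw [h2]

lemma dp_smooth {g : Eu d → ℝ} (hg : Smo g) (h : ℝ) (i : Fin d) : Smo (dp h i g) :=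
  (hg.comp (contDiff_id.add contDiff_const)).sub hg

/-- second differences -/
lemma dp2_mv {g : Eu d → ℝ} (hg : Smo g) (s t : ℝ) (i j : Fin d) (x : Eu d) :
    ∃ y, ‖y - x‖ ≤ |s| + |t| ∧ dp s j (dp t i g) x = s * (t * pd i (pd j g) y) := by
  obtain ⟨y, hy, e⟩ := dp_mv (dp_smooth hg t i) s j x
  rw [dp_pd hg] at e
  obtain ⟨z, hz, e'⟩ := dp_mv (hg.pd j) t i y
  refine ⟨z, ?_, by rw [e, e']⟩
  calc ‖z - x‖ = ‖(z - y) + (y - x)‖ := by rw [sub_add_sub_cancel]
    _ ≤ ‖z - y‖ + ‖y - x‖ := norm_add_le _ _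
    _ ≤ |s| + |t| := by linarith

/-- convergence of the second difference quotients -/
lemma Cv.dp2 {g : Eu d → ℝ} (hg : Smo g) (hc : HasCompactSupport g) (i j : Fin d) :
    Cv (fun h x => (h ^ 2)⁻¹ * dp h j (dp (-h) i g) x) (fun x => -pd i (pd j g) x) := by
  have hG : Continuous (pd i (pd j g)) := ((hg.pd j).pd i).continuous
  have hGc : HasCompactSupport (pd i (pd j g)) := HasCompactSupport.pd (HasCompactSupport.pd hc j) i
  have key : ∀ h : ℝ, 0 < h → ∀ x, ∃ y, ‖y - x‖ ≤ 2 * h ∧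
      (h ^ 2)⁻¹ * dp h j (dp (-h) i g) x = -pd i (pd j g) y := by
    intro h h0 x
    obtain ⟨y, hy, e⟩ := dp2_mv hg h (-h) i j x
    refine ⟨y, ?_, ?_⟩
    · rw [abs_neg, abs_of_pos h0] at hy; linarith
    · rw [e]; field_simp
  refine ⟨?_, ?_, fun x => ?_⟩
  · obtain ⟨M, hM⟩ := hGc.exists_bound_of_continuous hG
    refine ⟨M, fun h h0 h1 x => ?_⟩
    obtain ⟨y, -, e⟩ := key h h0 x
    rw [e, abs_neg]
    exact hM y
  · obtain ⟨R, hR⟩ := hGc.isBounded.subset_closedBall (0 : Eu d)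
    refine ⟨R + 2, fun h h0 h1 x hx => ?_⟩
    obtain ⟨y, hy, e⟩ := key h h0 x
    rw [e]
    by_contra h3
    have h4 : pd i (pd j g) y ≠ 0 := fun h5 => h3 (by rw [h5, neg_zero])
    have h5 := hR (subset_tsupport _ h4)
    rw [mem_closedBall_zero_iff] at h5
    have h6 : ‖x‖ ≤ ‖y‖ + ‖y - x‖ := by
      have := norm_sub_le y (y - x)
      rw [sub_sub_cancel] at this
      exact this
    linarith
  · rw [Metric.tendsto_nhds]
    intro ε hε
    have h1 := (Metric.continuous_iff.1 hG) x ε hε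
    obtain ⟨δ, hδ, h2⟩ := h1
    have h3 : ∀ᶠ q : ℝ × Eu d in 𝓝[>] 0 ×ˢ 𝓝 x, (0 < q.1 ∧ 2 * q.1 < δ / 2) ∧ ‖q.2 - x‖ < δ / 2 := by
      have k1 : ∀ᶠ h : ℝ in 𝓝[>] 0, 0 < h ∧ 2 * h < δ / 2 := by
        have : Set.Ioo (0 : ℝ) (δ / 4) ∈ 𝓝[>] (0 : ℝ) := Ioo_mem_nhdsGT (by linarith)
        filter_upwards [this] with h hh
        exact ⟨hh.1, by linarith [hh.2]⟩
      have k2 : ∀ᶠ y : Eu d in 𝓝 x, ‖y - x‖ < δ / 2 := by
        have : Metric.ball x (δ / 2) ∈ 𝓝 x := Metric.ball_mem_nhds x (by linarith)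
        filter_upwards [this] with y hy
        rwa [Metric.mem_ball, dist_eq_norm] at hy
      exact k1.prod_mk k2
    filter_upwards [h3] with q hq
    obtain ⟨y, hy, e⟩ := key q.1 hq.1.1 q.2
    rw [e, dist_neg_neg]
    refine h2 y ?_
    rw [dist_eq_norm]
    calc ‖y - x‖ = ‖(y - q.2) + (q.2 - x)‖ := by rw [sub_add_sub_cancel]
      _ ≤ ‖y - q.2‖ + ‖q.2 - x‖ := norm_add_le _ _
      _ < δ := by linarith [hq.1.2, hq.2]

/-- constant families -/
lemma Cv.const {g : Eu d → ℝ} (hg : Continuous g) (hc : HasCompactSupport g) :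
    Cv (fun _ x => g x) g where
  bdd := by
    obtain ⟨M, hM⟩ := hc.exists_bound_of_continuous hg
    exact ⟨M, fun h _ _ x => hM x⟩
  supp := by
    obtain ⟨R, hR⟩ := hc.isBounded.subset_closedBall (0 : Eu d)
    refine ⟨R, fun h _ _ x hx => ?_⟩
    by_contra h3
    have h5 := hR (subset_tsupport _ h3)
    rw [mem_closedBall_zero_iff] at h5
    linarith
  lim x := (hg.tendsto x).comp tendsto_snd

end

end Pool.Agent.U322.FL
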