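import Mathlib
import Pool.Agent.U322.FL.Proj
import Pool.Agent.U322.FL.Hodge
import Pool.Agent.U322.FL.Riem

/-!
# Free continuum limit of lattice Yang-Mills: sampling of functions on the periodic lattice
-/

open MeasureTheory Filter
open scoped ContDiff Topology
open Pool.Agent.H906R3.YM Pool.Agent.W793.YM

namespace Pool.Agent.U322.FL

set_option linter.unusedSectionVars false
set_option linter.unusedVariables false

noncomputable section

variable {n d l : ℕ} [NeZero l]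

/-- the coordinates of a site of the periodic lattice with respect to the origin `o` -/
def rep (o : Fin d → ℤ) (y : St d l) : Fin d → ℤ := fun i => (wv y i : ℤ) - o i

/-- sampling of a function on the periodic lattice -/
def smp (h : ℝ) (o : Fin d → ℤ) (g : Eu d → ℝ) : St d l → ℝ := fun y => g (pt h (rep o y))

/-- `g` vanishes at the lattice points with a coordinate larger than `r` -/
def Sup (h : ℝ) (r : ℕ) (g : Eu d → ℝ) : Prop :=
  ∀ z : Fin d → ℤ, g (pt h z) ≠ 0 → ∀ i, |z i| ≤ r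

/-- margins -/
def Mar (l r : ℕ) (o : Fin d → ℤ) : Prop := ∀ i, (r : ℤ) + 1 ≤ o i ∧ o i + r + 1 < l

lemma pt_add (h : ℝ) (z : Fin d → ℤ) (i : Fin d) :
    pt h (z + Pi.single i 1) = pt h z + h • e1 i := by
  ext j
  show h * (((z + Pi.single i 1 : Fin d → ℤ) j : ℤ) : ℝ) = h * (z j : ℝ) + h * (e1 i : Eu d) j
  unfold e1
  by_cases hj : j = i
  · subst hj; simp; ring
  · simp [hj]

lemma pt_sub (h : ℝ) (z : Fin d → ℤ) (i : Fin d) :
    pt h (z - Pi.single i 1) = pt h z + (-h) • e1 i := by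
  have := pt_add h (z - Pi.single i 1) i
  rw [sub_add_cancel] at this
  rw [this, add_assoc, ← add_smul]
  simp

lemma Sup.dp {h : ℝ} {r : ℕ} {g : Eu d → ℝ} (hg : Sup h r g) (i : Fin d) :
    Sup h (r + 1) (dp h i g) := by
  intro z hz k
  unfold FL.dp at hz
  rw [← pt_add] at hz
  by_cases h0 : g (pt h z) = 0
  · have h1 : g (pt h (z + Pi.single i 1)) ≠ 0 := by
      intro h2; apply hz; rw [h2, h0, sub_zero]
    have h3 := hg _ h1 k
    by_cases hk : k = i
    · subst hk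
      rw [Pi.add_apply, Pi.single_eq_same] at h3
      rw [abs_le] at h3 ⊢
      push_cast
      omega
    · rw [Pi.add_apply, Pi.single_eq_of_ne hk, add_zero] at h3
      push_cast
      omega
  · have := hg _ h0 k
    push_cast
    omega

lemma Sup.dm {h : ℝ} {r : ℕ} {g : Eu d → ℝ} (hg : Sup h r g) (i : Fin d) :
    Sup h (r + 1) (FL.dp (-h) i g) := by
  intro z hz k
  unfold FL.dp at hz
  rw [← pt_sub] at hz
  by_cases h0 : g (pt h z) = 0
  · have h1 : g (pt h (z - Pi.single i 1)) ≠ 0 := by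
      intro h2; apply hz; rw [h2, h0, sub_zero]
    have h3 := hg _ h1 k
    by_cases hk : k = i
    · subst hk
      rw [Pi.sub_apply, Pi.single_eq_same] at h3
      rw [abs_le] at h3 ⊢
      push_cast
      omega
    · rw [Pi.sub_apply, Pi.single_eq_of_ne hk, sub_zero] at h3
      push_cast
      omega
  · have := hg _ h0 k
    push_cast
    omega

lemma Sup.mono {h : ℝ} {r r' : ℕ} {g : Eu d → ℝ} (hg : Sup h r g) (hr : r ≤ r') : Sup h r' g :=
  fun z hz i => (hg z hz i).trans (by exact_mod_cast hr)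

lemma Sup.sum {h : ℝ} {r : ℕ} {ι : Type*} (s : Finset ι) {g : ι → Eu d → ℝ}
    (hg : ∀ k, Sup h r (g k)) : Sup h r (fun x => ∑ k ∈ s, g k x) := by
  intro z hz
  obtain ⟨k, _, hk⟩ := Finset.exists_ne_zero_of_sum_ne_zero hz
  exact hg k z hk

lemma Sup.sub {h : ℝ} {r : ℕ} {f g : Eu d → ℝ} (hf : Sup h r f) (hg : Sup h r g) :
    Sup h r (fun x => f x - g x) := by
  intro z hz
  by_cases h0 : f (pt h z) = 0
  · exact hg z fun h1 => hz (by simp only; rw [h0, h1, sub_zero])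
  · exact hf z h0

lemma Sup.cmul {h : ℝ} {r : ℕ} {f : Eu d → ℝ} (hf : Sup h r f) (c : ℝ) :
    Sup h r (fun x => c * f x) := fun z hz => hf z fun h1 => hz (by simp only; rw [h1, mul_zero])

lemma Sup.comp {h : ℝ} {r : ℕ} {f : Eu d → ℝ} (hf : Sup h r f) {q : ℝ → ℝ} (hq : q 0 = 0) :
    Sup h r (fun x => q (f x)) := fun z hz => hf z fun h1 => hz (by simp only; rw [h1, hq])

lemma rep_add {o : Fin d → ℤ} {y : St d l} {i : Fin d} (h : wv y i + 1 < l) :
    rep o (y + eT i) = rep o y + Pi.single i 1 := by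
  funext k
  show ((wv (y + eT i) k : ℕ) : ℤ) - o k = (wv y k : ℤ) - o k + (Pi.single i 1 : Fin d → ℤ) k
  rw [wv_add h]
  by_cases hk : k = i
  · subst hk
    rw [Pi.single_eq_same, Pi.add_apply, es_same]
    push_cast
    ring
  · rw [Pi.single_eq_of_ne hk, Pi.add_apply, es_ne hk, add_zero, add_zero]

lemma rep_wrap {o : Fin d → ℤ} {y : St d l} {i : Fin d} (h : ¬wv y i + 1 < l) :
    rep o (y + eT i) i = -o i ∧ rep o y i = l - 1 - o i := by
  have h1 : wv y i < l := wv_lt y i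
  have h2 : wv y i + 1 = l := by omega
  have h3 : wv (y + eT i) i = 0 := by
    unfold wv
    have e : (y + eT i : St d l) i = 0 := by
      rw [Pi.add_apply]
      have e1 : (eT i : St d l) i = 1 := by simp [eT]
      rw [e1]
      have e2 : y i = ((wv y i : ℕ) : ZMod l) := by unfold wv; simp
      rw [e2]
      have e3 : ((wv y i : ℕ) : ZMod l) + 1 = ((wv y i + 1 : ℕ) : ZMod l) := by push_cast; ring
      rw [e3, h2]
      simp
    rw [e]; simp
  constructor
  · show ((wv (y + eT i) i : ℕ) : ℤ) - o i = _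
    rw [h3]; simp
  · show ((wv y i : ℕ) : ℤ) - o i = _
    omega

lemma Dp_smp {h : ℝ} {o : Fin d → ℤ} {g : Eu d → ℝ} {r : ℕ} (hg : Sup h r g) (hm : Mar l r o)
    (i : Fin d) : Dp i (smp h o g : St d l → ℝ) = smp h o (dp h i g) := by
  funext y
  unfold Dp smp dp
  by_cases h1 : wv y i + 1 < l
  · rw [rep_add h1, pt_add]
  · obtain ⟨h2, h3⟩ := rep_wrap (o := o) h1
    have hmi := hm i
    have q1 : g (pt h (rep o (y + eT i))) = 0 := by
      by_contra h4
      have := hg _ h4 i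
      rw [h2, abs_le] at this
      omega
    have q2 : g (pt h (rep o y)) = 0 := by
      by_contra h4
      have := hg _ h4 i
      rw [h3, abs_le] at this
      omega
    have q3 : g (pt h (rep o y) + h • FL.e1 i) = 0 := by
      rw [← pt_add]
      by_contra h4
      have := hg _ h4 i
      rw [Pi.add_apply, Pi.single_eq_same, h3, abs_le] at this
      omega
    rw [q1, q2, q3]

lemma Dm_smp {h : ℝ} {o : Fin d → ℤ} {g : Eu d → ℝ} {r : ℕ} (hg : Sup h r g) (hm : Mar l r o)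
    (i : Fin d) : Dm i (smp h o g : St d l → ℝ) = smp h o (dp (-h) i g) := by
  funext y
  unfold Dm smp dp
  obtain ⟨y', hy'⟩ : ∃ y' : St d l, y' = y - eT i := ⟨_, rfl⟩
  have hy : y = y' + eT i := by rw [hy', sub_add_cancel]
  rw [← hy']
  by_cases h1 : wv y' i + 1 < l
  · have e : rep o y' = rep o y - Pi.single i 1 := by
      rw [hy, rep_add h1, add_sub_cancel_right]
    rw [e, pt_sub]
  · obtain ⟨h2, h3⟩ := rep_wrap (o := o) h1
    rw [← hy] at h2
    have hmi := hm i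
    have q1 : g (pt h (rep o y')) = 0 := by
      by_contra h4
      have := hg _ h4 i
      rw [h3, abs_le] at this
      omega
    have q2 : g (pt h (rep o y)) = 0 := by
      by_contra h4
      have := hg _ h4 i
      rw [h2, abs_le] at this
      omega
    have q3 : g (pt h (rep o y) + (-h) • FL.e1 i) = 0 := by
      rw [← pt_sub]
      by_contra h4
      have := hg _ h4 i
      rw [Pi.sub_apply, Pi.single_eq_same, h2, abs_le] at this
      omega
    rw [q1, q2, q3]

lemma rep_inj (o : Fin d → ℤ) : Function.Injective (rep o : St d l → Fin d → ℤ) := by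
  intro y y' h
  apply wv_inj
  funext i
  have := congrFun h i
  unfold rep at this
  have h2 : (wv y i : ℤ) = wv y' i := by linarith
  exact_mod_cast h2

/-- sums over the periodic lattice -/
lemma sum_smp {h : ℝ} {o : Fin d → ℤ} {g : Eu d → ℝ} {r : ℕ} (hg : Sup h r g) (hm : Mar l r o) :
    ∑ y, (smp h o g : St d l → ℝ) y = ∑' z : Fin d → ℤ, g (pt h z) := by
  have h1 : Function.support (fun z : Fin d → ℤ => g (pt h z)) ⊆
      Set.range (rep o : St d l → Fin d → ℤ) := by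
    intro z hz
    have h2 := hg z hz
    refine ⟨fun i => ((z i + o i : ℤ) : ZMod l), ?_⟩
    funext i
    have h3 := h2 i
    have h4 := hm i
    rw [abs_le] at h3
    obtain ⟨k, hk⟩ := Int.eq_ofNat_of_zero_le (show 0 ≤ z i + o i by omega)
    show ((((z i + o i : ℤ) : ZMod l).val : ℕ) : ℤ) - o i = z i
    rw [hk, Int.cast_natCast, ZMod.val_natCast_of_lt (by omega)]
    omega
  rw [← Function.Injective.tsum_eq (rep_inj o) h1, tsum_fintype]
  rfl

/-! ### forms -/

/-- the sampled form -/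
def smpF (c h : ℝ) (o : Fin d → ℤ) (f : TestForm n d) : Fin n → Fm d l := fun a j k =>
  smp h o fun x => c * f.f a j k x

lemma smpF_asy (c h : ℝ) (o : Fin d → ℤ) (f : TestForm n d) (a : Fin n) :
    Asy (smpF c h o f a : Fm d l) := by
  intro j k
  funext y
  show c * f.f a j k _ = -(c * f.f a k j _)
  rw [f.anti a j k]; ring

/-- all components are supported in the cube of radius `r` -/
def SupF (h : ℝ) (r : ℕ) (f : TestForm n d) : Prop := ∀ a j k, Sup h r (f.f a j k)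

lemma SupF.anti {h : ℝ} {r r' : ℕ} {f : TestForm n d} (hf : SupF h r f) (hr : r ≤ r') :
    SupF h r' f := fun a j k => (hf a j k).mono hr

lemma Mar.anti {r r' : ℕ} {o : Fin d → ℤ} (hm : Mar l r' o) (hr : r ≤ r') : Mar l r o := fun i => by
  have := hm i
  constructor <;> omega

/-- the Laplace operator of the sampled form -/
lemma lap_smp {c h : ℝ} {o : Fin d → ℤ} {f : TestForm n d} {r : ℕ} (hf : SupF h r f)
    (hm : Mar l (r + 1) o) (a : Fin n) (j k : Fin d) :
    lapn (smpF c h o f : Fin n → Fm d l) a j k =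
      smp h o (fun x => c * ∑ i, dp h i (dp (-h) i (f.f a j k)) x) := by
  unfold lapn lap smpF
  have h0 : Sup h r (fun x => c * f.f a j k x) := (hf a j k).cmul c
  have h1 : ∀ i, Dm i (Dp i (smp h o (fun x => c * f.f a j k x) : St d l → ℝ)) =
      smp h o (dp h i (dp (-h) i fun x => c * f.f a j k x)) := by
    intro i
    rw [← Dp_Dm, Dm_smp h0 (hm.anti (by omega)), Dp_smp (h0.dm i) hm]
  rw [Finset.sum_congr rfl fun i _ => h1 i]
  funext y
  rw [Finset.sum_apply]
  unfold smp dp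
  simp only [Finset.mul_sum]
  exact Finset.sum_congr rfl fun i _ => by ring

/-- the exact part of the Laplace operator of the sampled form -/
lemma ex2_smp {c h : ℝ} {o : Fin d → ℤ} {f : TestForm n d} {r : ℕ} (hf : SupF h r f)
    (hm : Mar l (r + 1) o) (a : Fin n) (j k : Fin d) :
    ex2 (smpF c h o f : Fin n → Fm d l) a j k =
      smp h o (fun x => c * (∑ i, dp h j (dp (-h) i (f.f a i k)) x -
        ∑ i, dp h k (dp (-h) i (f.f a i j)) x)) := by
  have h1 : ∀ k, ds2 (smpF c h o f a : Fm d l) k =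
      smp h o (fun x => ∑ i, dp (-h) i (fun x => c * f.f a i k x) x) := by
    intro k
    unfold ds2 smpF
    have h0 : ∀ i, Sup h r (fun x => c * f.f a i k x) := fun i => (hf a i k).cmul c
    rw [Finset.sum_congr rfl fun i _ => Dm_smp (h0 i) (hm.anti (by omega)) i]
    funext y
    rw [Finset.sum_apply]
    rfl
  have h2 : ∀ k, Sup h (r + 1) (fun x => ∑ i, dp (-h) i (fun x => c * f.f a i k x) x) := fun k =>
    Sup.sum _ fun i => ((hf a i k).cmul c).dm i
  unfold ex2 d1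
  rw [h1, h1, Dp_smp (h2 k) hm, Dp_smp (h2 j) hm]
  funext y
  rw [Pi.sub_apply]
  unfold smp dp
  simp only [mul_sub, Finset.mul_sum, ← Finset.sum_sub_distrib]

lemma sum_sq_smp {c h : ℝ} {o : Fin d → ℤ} {g : Eu d → ℝ} {r : ℕ} (hg : Sup h r g)
    (hm : Mar l r o) : ∑ y, (smp h o (fun x => c * g x) : St d l → ℝ) y ^ 2 =
      c ^ 2 * ∑' z : Fin d → ℤ, g (pt h z) ^ 2 := by
  have h1 : Sup h r (fun x => (c * g x) ^ 2) := (hg.cmul c).comp (q := fun t => t ^ 2) (by simp)
  have h2 := sum_smp (l := l) h1 hm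
  have h3 : ∑ y, (smp h o (fun x => c * g x) : St d l → ℝ) y ^ 2 =
      ∑ y, (smp h o (fun x => (c * g x) ^ 2) : St d l → ℝ) y := rfl
  rw [h3, h2, ← tsum_mul_left]
  exact tsum_congr fun z => by ring

/-- the first sum -/
def T1 (f ψ : TestForm n d) (h : ℝ) (a : Fin n) (j k : Fin d) (x : Eu d) : ℝ :=
  f.f a j k x - ∑ i, (h ^ 2)⁻¹ * dp h i (dp (-h) i (ψ.f a j k)) x

/-- the second sum -/
def T2 (ψ : TestForm n d) (h : ℝ) (a : Fin n) (j k : Fin d) (x : Eu d) : ℝ :=
  ∑ i, (h ^ 2)⁻¹ * dp h j (dp (-h) i (ψ.f a i k)) x -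
    ∑ i, (h ^ 2)⁻¹ * dp h k (dp (-h) i (ψ.f a i j)) x

lemma N2_first {h : ℝ} (hh : 0 < h) {o : Fin d → ℤ} {f ψ : TestForm n d} {r : ℕ}
    (hf : SupF h r f) (hψ : SupF h r ψ) (hm : Mar l (r + 2) o) {c : ℝ} (hc : c ^ 2 = h ^ d) :
    N2 ((smpF c h o f : Fin n → Fm d l) - lapn (smpF (c * (h ^ 2)⁻¹) h o ψ)) =
      ∑ a, ∑ j, ∑ k, h ^ d * ∑' z : Fin d → ℤ, T1 f ψ h a j k (pt h z) ^ 2 := by
  unfold N2
  refine Finset.sum_congr rfl fun a _ => Finset.sum_congr rfl fun j _ =>
    Finset.sum_congr rfl fun k _ => ?_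
  have h1 : ((smpF c h o f - lapn (smpF (c * (h ^ 2)⁻¹) h o ψ)) : Fin n → Fm d l) a j k =
      smp h o (fun x => c * T1 f ψ h a j k x) := by
    show smpF c h o f a j k - lapn (smpF (c * (h ^ 2)⁻¹) h o ψ) a j k = _
    rw [lap_smp hψ (hm.anti (by omega))]
    funext y
    show c * f.f a j k _ - c * (h ^ 2)⁻¹ * ∑ i, _ = c * T1 f ψ h a j k _
    unfold T1
    rw [← Finset.mul_sum]
    ring
  rw [h1]
  have h2 : Sup h (r + 2) (T1 f ψ h a j k) := by
    refine ((hf a j k).mono (by omega)).sub (Sup.sum _ fun i => ?_)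
    exact (((hψ a j k).dm i).dp i).cmul _
  rw [sum_sq_smp h2 hm, hc]

lemma N2_second {h : ℝ} (hh : 0 < h) {o : Fin d → ℤ} {ψ : TestForm n d} {r : ℕ}
    (hψ : SupF h r ψ) (hm : Mar l (r + 2) o) {c : ℝ} (hc : c ^ 2 = h ^ d) :
    N2 (ex2 (smpF (c * (h ^ 2)⁻¹) h o ψ : Fin n → Fm d l)) =
      ∑ a, ∑ j, ∑ k, h ^ d * ∑' z : Fin d → ℤ, T2 ψ h a j k (pt h z) ^ 2 := by
  unfold N2
  refine Finset.sum_congr rfl fun a _ => Finset.sum_congr rfl fun j _ =>
    Finset.sum_congr rfl fun k _ => ?_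
  have h1 : ex2 (smpF (c * (h ^ 2)⁻¹) h o ψ : Fin n → Fm d l) a j k =
      smp h o (fun x => c * T2 ψ h a j k x) := by
    rw [ex2_smp hψ (hm.anti (by omega))]
    funext y
    show c * (h ^ 2)⁻¹ * (_ - _) = c * T2 ψ h a j k _
    unfold T2
    rw [← Finset.mul_sum, ← Finset.mul_sum]
    ring
  rw [h1]
  have h2 : Sup h (r + 2) (T2 ψ h a j k) := by
    refine (Sup.sum _ fun i => ?_).sub (Sup.sum _ fun i => ?_)
    · exact (((hψ a i k).dm i).dp j).cmul _
    · exact (((hψ a i j).dm i).dp k).cmul _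
  rw [sum_sq_smp h2 hm, hc]

/-- the limits -/
lemma T1_cv (f ψ : TestForm n d) (a : Fin n) (j k : Fin d) :
    Cv (fun h x => T1 f ψ h a j k x) (fun x => f.f a j k x + Lc (ψ.f a j k) x) := by
  have h1 := (Cv.const (f.smooth a j k).continuous (f.compact a j k)).sub
    (Cv.sum Finset.univ fun i => Cv.dp2 (ψ.smooth a j k) (ψ.compact a j k) i i)
  have e : (fun x => f.f a j k x - ∑ i, -pd i (pd i (ψ.f a j k)) x) =
      fun x => f.f a j k x + Lc (ψ.f a j k) x := by
    funext x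
    unfold Lc
    rw [Finset.sum_neg_distrib, sub_neg_eq_add]
  rw [e] at h1
  exact h1

lemma T2_cv (ψ : TestForm n d) (a : Fin n) (j k : Fin d) :
    Cv (fun h x => T2 ψ h a j k x) (fun x => DDf ψ a j k x) := by
  have h1 := (Cv.sum Finset.univ fun i => Cv.dp2 (ψ.smooth a i k) (ψ.compact a i k) i j).sub
    (Cv.sum Finset.univ fun i => Cv.dp2 (ψ.smooth a i j) (ψ.compact a i j) i k)
  have e : (fun x => ∑ i, -pd i (pd j (ψ.f a i k)) x - ∑ i, -pd i (pd k (ψ.f a i j)) x) =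
      fun x => DDf ψ a j k x := by
    funext x
    unfold DDf dvg
    rw [pd_sum _ (fun i => Smo.pd (ψ.smooth a i k) i), pd_sum _ (fun i => Smo.pd (ψ.smooth a i j) i)]
    simp only
    rw [Finset.sum_neg_distrib, Finset.sum_neg_distrib]
    have e1 : ∀ i, pd i (pd j (ψ.f a i k)) x = pd j (pd i (ψ.f a i k)) x := fun i => by
      rw [pd_comm (ψ.smooth a i k)]
    have e2 : ∀ i, pd i (pd k (ψ.f a i j)) x = pd k (pd i (ψ.f a i j)) x := fun i => by
      rw [pd_comm (ψ.smooth a i j)]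
    simp only [e1, e2]
    ring
  rw [e] at h1
  exact h1

/-- the sums converge -/
lemma first_tendsto (f ψ : TestForm n d) : Tendsto (fun h : ℝ => ∑ a, ∑ j, ∑ k, h ^ d *
      ∑' z : Fin d → ℤ, T1 f ψ h a j k (pt h z) ^ 2) (𝓝[>] 0)
    (𝓝 (∑ a, ∑ j, ∑ k, ∫ x, (f.f a j k x + Lc (ψ.f a j k) x) ^ 2)) :=
  tendsto_finsetSum _ fun a _ => tendsto_finsetSum _ fun j _ => tendsto_finsetSum _ fun k _ =>
    riemann (T1_cv f ψ a j k).sq

lemma second_tendsto (ψ : TestForm n d) : Tendsto (fun h : ℝ => ∑ a, ∑ j, ∑ k, h ^ d *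
      ∑' z : Fin d → ℤ, T2 ψ h a j k (pt h z) ^ 2) (𝓝[>] 0)
    (𝓝 (∑ a, ∑ j, ∑ k, ∫ x, DDf ψ a j k x ^ 2)) :=
  tendsto_finsetSum _ fun a _ => tendsto_finsetSum _ fun j _ => tendsto_finsetSum _ fun k _ =>
    riemann (T2_cv ψ a j k).sq

/-- the masses are bounded -/
lemma N1_bound (f : TestForm n d) : ∃ C : ℝ, 0 ≤ C ∧ ∀ᶠ h : ℝ in 𝓝[>] 0, ∀ (l : ℕ) [NeZero l]
    (o : Fin d → ℤ) (r : ℕ) (c : ℝ), SupF h r f → Mar l r o → 0 ≤ c → c ^ 2 = h ^ d →
    c * N1 (smpF c h o f : Fin n → Fm d l) ≤ C := by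
  obtain ⟨C0, hC0⟩ : ∃ C0 : ℝ, C0 = ∑ a, ∑ j, ∑ k, ∫ x, |f.f a j k x| := ⟨_, rfl⟩
  have h1 : Tendsto (fun h : ℝ => ∑ a, ∑ j, ∑ k, h ^ d *
      ∑' z : Fin d → ℤ, |f.f a j k (pt h z)|) (𝓝[>] 0) (𝓝 C0) := by
    rw [hC0]
    refine tendsto_finsetSum _ fun a _ => tendsto_finsetSum _ fun j _ =>
      tendsto_finsetSum _ fun k _ => riemann (Cv.const (f.smooth a j k).continuous.abs ?_)
    exact (f.compact a j k).comp_left (g := fun t : ℝ => |t|) abs_zero
  have hC0n : 0 ≤ C0 := by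
    rw [hC0]
    exact Finset.sum_nonneg fun a _ => Finset.sum_nonneg fun j _ => Finset.sum_nonneg fun k _ =>
      integral_nonneg fun x => abs_nonneg _
  refine ⟨C0 + 1, by linarith, ?_⟩
  filter_upwards [h1.eventually (gt_mem_nhds (lt_add_one C0))] with h hh l _ o r c hf hm hc hc2
  refine le_trans (le_of_eq ?_) hh.le
  unfold N1
  rw [Finset.mul_sum]
  refine Finset.sum_congr rfl fun a _ => ?_
  rw [Finset.mul_sum]
  refine Finset.sum_congr rfl fun j _ => ?_
  rw [Finset.mul_sum]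
  refine Finset.sum_congr rfl fun k _ => ?_
  have h2 : Sup h r (fun x => |c * f.f a j k x|) :=
    ((hf a j k).cmul c).comp (q := fun t => |t|) abs_zero
  have h3 := sum_smp (l := l) h2 hm
  have h4 : ∑ y, |(smpF c h o f : Fin n → Fm d l) a j k y| =
      ∑ y, (smp h o (fun x => |c * f.f a j k x|) : St d l → ℝ) y := rfl
  rw [h4, h3, ← hc2, pow_two, mul_assoc, ← tsum_mul_left, ← tsum_mul_left, ← tsum_mul_left]
  exact tsum_congr fun z => by rw [abs_mul, abs_of_nonneg hc]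

/-- the supports -/
lemma sup_of_compact (f : TestForm n d) : ∃ R : ℝ, 0 ≤ R ∧ ∀ (h : ℝ), 0 < h → ∀ r : ℕ,
    R ≤ h * r → SupF h r f := by
  have h1 : ∀ a j k, ∃ R : ℝ, ∀ x, f.f a j k x ≠ 0 → ‖x‖ ≤ R := fun a j k => by
    obtain ⟨R, hR⟩ := (f.compact a j k).isBounded.subset_closedBall (0 : Eu d)
    exact ⟨R, fun x hx => by
      have := hR (subset_tsupport _ hx)
      rwa [mem_closedBall_zero_iff] at this⟩
  choose R hR using h1
  have hRn : 0 ≤ ∑ a, ∑ j, ∑ k, |R a j k| := Finset.sum_nonneg fun a _ =>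
    Finset.sum_nonneg fun j _ => Finset.sum_nonneg fun k _ => abs_nonneg _
  refine ⟨∑ a, ∑ j, ∑ k, |R a j k|, hRn, fun h hh r hr a j k z hz i => ?_⟩
  have h2 : R a j k ≤ ∑ a, ∑ j, ∑ k, |R a j k| := by
    refine (le_abs_self _).trans ?_
    refine (Finset.single_le_sum (f := fun k => |R a j k|) (fun _ _ => abs_nonneg _)
      (Finset.mem_univ k)).trans ?_
    refine (Finset.single_le_sum (f := fun j => ∑ k, |R a j k|) (fun _ _ =>
      Finset.sum_nonneg fun _ _ => abs_nonneg _) (Finset.mem_univ j)).trans ?_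
    exact Finset.single_le_sum (f := fun a => ∑ j, ∑ k, |R a j k|) (fun _ _ =>
      Finset.sum_nonneg fun _ _ => Finset.sum_nonneg fun _ _ => abs_nonneg _) (Finset.mem_univ a)
  have h3 := hR a j k _ hz
  have h4 : |h * (z i : ℝ)| ≤ ‖pt h z‖ := by
    have := PiLp.norm_apply_le (pt h z) i
    rwa [Real.norm_eq_abs] at this
  rw [abs_mul, abs_of_pos hh] at h4
  have h5 : h * |(z i : ℝ)| ≤ h * r := h4.trans (h3.trans (h2.trans hr))
  have h6 := le_of_mul_le_mul_left h5 hh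
  exact_mod_cast h6

end

end Pool.Agent.U322.FL
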