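import Mathlib
import Pool.Agent.U322.FL.Samp

/-!
# Free continuum limit of lattice Yang-Mills: the variance
-/

open MeasureTheory Filter
open scoped ContDiff Topology
open Pool.Agent.H906R3.YM Pool.Agent.W793.YM

namespace Pool.Agent.U322.FL

set_option linter.unusedSectionVars false
set_option linter.unusedVariables false

noncomputable section

variable {n d : ℕ}

lemma sqrt_half (x : ℝ) : Real.sqrt (1 / 2 * x) = Real.sqrt (1 / 2) * Real.sqrt x := by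
  rw [Real.sqrt_mul (by norm_num)]

/-- the variance of the sampled form -/
theorem var_lim (hd : 0 < d) (f : TestForm n d) {δ : ℝ} (hδ : 0 < δ) : ∃ R : ℝ, 0 ≤ R ∧
    ∀ᶠ h : ℝ in 𝓝[>] 0, ∀ (l : ℕ) [NeZero l] (K : ℕ) (o : Fin d → ℤ) (r : ℕ) (c : ℝ),
      R ≤ h * r → Mar l (r + 2) o → c ^ 2 = h ^ d →
        |Real.sqrt (vK K (smpF c h o f : Fin n → Fm d l)) - Real.sqrt (vM f)| ≤
          δ + Real.sqrt (N2 (Pks K (smpF c h o f : Fin n → Fm d l))) := by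
  obtain ⟨ε, hε⟩ : ∃ ε : ℝ, ε = δ / 4 := ⟨_, rfl⟩
  have hε0 : 0 < ε := by rw [hε]; positivity
  obtain ⟨ψ, h1, h2⟩ := hodge hd f hε0
  obtain ⟨R1, hR1, hs1⟩ := sup_of_compact f
  obtain ⟨R2, hR2, hs2⟩ := sup_of_compact ψ
  refine ⟨max R1 R2, le_max_of_le_left hR1, ?_⟩
  have h3 := (first_tendsto f ψ).eventually (gt_mem_nhds (show
    ∑ a, ∑ j, ∑ k, ∫ x, (f.f a j k x + Lc (ψ.f a j k) x) ^ 2 < (2 * ε) ^ 2 by nlinarith))
  have h4 : Tendsto (fun h : ℝ => Real.sqrt (1 / 2 * ∑ a, ∑ j, ∑ k, h ^ d *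
      ∑' z : Fin d → ℤ, T2 ψ h a j k (pt h z) ^ 2)) (𝓝[>] 0)
      (𝓝 (Real.sqrt (1 / 2 * ∑ a, ∑ j, ∑ k, ∫ x, DDf ψ a j k x ^ 2))) :=
    (Real.continuous_sqrt.tendsto _).comp ((second_tendsto ψ).const_mul (1 / 2))
  have h5 := h4.eventually (Metric.ball_mem_nhds _ hε0)
  filter_upwards [h3, h5, self_mem_nhdsWithin] with h h3 h5 hh l _ K o r c hR hm hc
  have hh0 : 0 < h := hh
  have hsf : SupF h r f := hs1 h hh0 r ((le_max_left _ _).trans hR)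
  have hsψ : SupF h r ψ := hs2 h hh0 r ((le_max_right _ _).trans hR)
  have h6 := proj (K := K) (f := (smpF c h o f : Fin n → Fm d l))
    (u := smpF (c * (h ^ 2)⁻¹) h o ψ) (fun a => smpF_asy c h o f a) (fun a => smpF_asy _ h o ψ a)
  have h7 := N2_first (l := l) hh0 hsf hsψ hm hc
  have h8 := N2_second (l := l) hh0 hsψ hm hc
  rw [← h7] at h3
  rw [← h8] at h5
  rw [Real.dist_eq] at h5
  have h9 : Real.sqrt (N2 ((smpF c h o f : Fin n → Fm d l) - lapn (smpF (c * (h ^ 2)⁻¹) h o ψ))) ≤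
      2 * ε := by
    rw [Real.sqrt_le_iff]
    exact ⟨by positivity, h3.le⟩
  rw [vK_eq', sqrt_half]
  rw [sqrt_half] at h5
  have h10 : Real.sqrt (1 / 2) ≤ 1 := by
    rw [Real.sqrt_le_iff]; norm_num
  have h11 : 0 ≤ Real.sqrt (1 / 2 : ℝ) := Real.sqrt_nonneg _
  obtain ⟨A, hA⟩ : ∃ A, A = Real.sqrt (N2 (fun a => TL K ((smpF c h o f : Fin n → Fm d l) a))) :=
    ⟨_, rfl⟩
  obtain ⟨B, hB⟩ : ∃ B, B = Real.sqrt (N2 (ex2 (smpF (c * (h ^ 2)⁻¹) h o ψ : Fin n → Fm d l))) :=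
    ⟨_, rfl⟩
  obtain ⟨P, hP⟩ : ∃ P, P = Real.sqrt (N2 (Pks K (smpF c h o f : Fin n → Fm d l))) := ⟨_, rfl⟩
  rw [← hA, ← hP] 
  rw [← hB] at h5
  rw [← hA, ← hB, ← hP] at h6
  have hP0 : 0 ≤ P := by rw [hP]; exact Real.sqrt_nonneg _
  have h12 : |A - B| ≤ 2 * ε + P := h6.trans (by linarith)
  have h13 : |Real.sqrt (1 / 2) * A - Real.sqrt (1 / 2) * B| ≤ 2 * ε + P := by
    rw [← mul_sub, abs_mul, abs_of_nonneg h11]
    calc _ ≤ 1 * |A - B| := mul_le_mul_of_nonneg_right h10 (abs_nonneg _)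
      _ ≤ _ := by rw [one_mul]; exact h12
  rw [abs_le] at h13 h2 ⊢
  rw [abs_lt] at h5
  constructor <;> linarith [h13.1, h13.2, h2.1, h2.2, h5.1, h5.2]

end

end Pool.Agent.U322.FL
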