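import Mathlib
import Pool.Agent.U322.FL.Lim
import Pool.Agent.W793.YM.Rebase
import Pool.Agent.W793.YM.Inf

/-!
# Free continuum limit of lattice Yang-Mills: the smeared field
-/

open MeasureTheory Filter Matrix
open scoped ContDiff Topology Matrix.Norms.Frobenius
open Pool.Agent.H906R3.YM Pool.Agent.W793.YM

namespace Pool.Agent.U322.FL

set_option linter.unusedSectionVars false
set_option linter.unusedVariables false

noncomputable section

section sums

variable {d l : ℕ} [NeZero l]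

lemma rep_zt {o : Fin d → ℤ} {r : ℕ} (hm : Mar l r o) {z : Fin d → ℤ} (hz : ∀ i, |z i| ≤ r) :
    rep o (zt l (z + o)) = z := by
  funext i
  unfold rep
  rw [wv_zt fun i => ?_]
  · rw [Pi.add_apply, add_sub_cancel_right]
  · have h1 := hz i
    have h2 := hm i
    rw [abs_le] at h1
    rw [Pi.add_apply]
    constructor <;> omega

/-- sums over the periodic lattice -/
lemma sum_rep {o : Fin d → ℤ} {F : (Fin d → ℤ) → ℝ} {r : ℕ}
    (hF : ∀ z, F z ≠ 0 → ∀ i, |z i| ≤ r) (hm : Mar l r o) :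
    ∑ y : St d l, F (rep o y) = ∑' z : Fin d → ℤ, F z := by
  have h1 : Function.support F ⊆ Set.range (rep o : St d l → Fin d → ℤ) := fun z hz =>
    ⟨zt l (z + o), rep_zt hm (hF z hz)⟩
  rw [← Function.Injective.tsum_eq (rep_inj o) h1, tsum_fintype]

lemma zt_rep (o : Fin d → ℤ) (y : St d l) : zt l (rep o y + o) = y := by
  funext i
  unfold zt rep wv
  simp

end sums

section field

variable {G : Type*} [Group G] [TopologicalSpace G] [IsTopologicalGroup G] [CompactSpace G]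
  [SecondCountableTopology G] [MeasurableSpace G] [BorelSpace G] (μ : Measure G)
  [IsProbabilityMeasure μ] [μ.IsMulLeftInvariant] [μ.IsMulRightInvariant] [μ.IsInvInvariant]
  {N n : ℕ} (L : LD G N n) {d l : ℕ} [NeZero l]

/-- the plaquette variable on the infinite lattice -/
def plz (V : Ez d → G) (x : Fin d → ℤ) (i j : Fin d) : G :=
  V (x, i) * V (x + Pi.single i 1, j) * (V (x + Pi.single j 1, i))⁻¹ * (V (x, j))⁻¹

lemma plz_lf (U : Ed d l → G) (x : Fin d → ℤ) (i j : Fin d) :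
    plz (lf U) x i j = plqT U (zt l x) i j := by
  unfold plz plqT
  rw [← zt_add, ← zt_add]
  rfl

lemma plz_trans (V : Ez d → G) (w x : Fin d → ℤ) (i j : Fin d) :
    plz (fun e => V (e.1 + w, e.2)) x i j = plz V (x + w) i j := by
  unfold plz
  simp only
  rw [add_right_comm x (Pi.single i 1) w, add_right_comm x (Pi.single j 1) w]

lemma lf_tr (U : Ed d l → G) (o : Fin d → ℤ) :
    lf (tr (zt l o) U) = fun e => lf U (e.1 + o, e.2) := by
  funext e
  unfold lf tr zt
  simp only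
  congr 1
  refine Prod.ext ?_ rfl
  funext i
  simp

/-- the components of the transported curvature -/
def fst (V : Ez d → G) (P : (Fin d → ℤ) → List (Fin d × Bool)) (a : Fin n) (j k : Fin d)
    (x : Fin d → ℤ) : ℝ :=
  fi L a (hol V 0 (P x) * plz V x j k * (hol V 0 (P x))⁻¹)

/-- the field smeared with a test form -/
def Phi (β h : ℝ) (P : (Fin d → ℤ) → List (Fin d × Bool)) (f : TestForm n d)
    (V : Ez d → G) : ℝ :=
  h ^ d * ∑' x : Fin d → ℤ, 1 / 2 * ∑ j, ∑ k, ∑ a,
    f.f a j k (pt h x) * (Real.sqrt β / Real.sqrt (h ^ d) * fst L V P a j k x)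

lemma sum3 {ι : Type*} [Fintype ι] (F : ι → Fin d → Fin d → ℝ) :
    ∑ j, ∑ k, ∑ a, F a j k = ∑ a, ∑ j, ∑ k, F a j k := by
  rw [Finset.sum_congr rfl fun j _ => Finset.sum_comm, Finset.sum_comm]

/-- the paths on the periodic lattice -/
def Pp (o : Fin d → ℤ) (P : (Fin d → ℤ) → List (Fin d × Bool)) :
    St d l → List (Fin d × Bool) := fun y => P (rep o y)

lemma Phi_eq {β b h : ℝ} (hb : 0 ≤ b) (hβ : b ^ 4 = β) (hh : 0 < h)
    (P : (Fin d → ℤ) → List (Fin d × Bool)) {f : TestForm n d} {o : Fin d → ℤ} {r : ℕ}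
    (hf : SupF h r f) (hm : Mar l r o) (U : Ed d l → G) :
    Phi L β h P f (lf (tr (zt l o) U)) = b ^ 2 *
      Fh L (smpF (Real.sqrt (h ^ d)) h o f) (fun y => hol (lf U) o (Pp o P y)) U := by
  have hs : Real.sqrt β = b ^ 2 := by
    rw [← hβ, show b ^ 4 = (b ^ 2) ^ 2 by ring, Real.sqrt_sq (by positivity)]
  have hc : 0 < Real.sqrt (h ^ d) := Real.sqrt_pos.2 (by positivity)
  have hc2 : Real.sqrt (h ^ d) * Real.sqrt (h ^ d) = h ^ d := Real.mul_self_sqrt (by positivity)
  unfold Phi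
  have h1 : ∀ z : Fin d → ℤ, (1 / 2 * ∑ j, ∑ k, ∑ a, f.f a j k (pt h z) *
      (Real.sqrt β / Real.sqrt (h ^ d) * fst L (lf (tr (zt l o) U)) P a j k z)) ≠ 0 →
      ∀ i, |z i| ≤ r := by
    intro z hz i
    by_contra hzi
    apply hz
    have h2 : ∀ a j k, f.f a j k (pt h z) = 0 := by
      intro a j k
      by_contra h3
      exact hzi (hf a j k z h3 i)
    simp only [h2, zero_mul, Finset.sum_const_zero, mul_zero]
  rw [← sum_rep h1 hm]
  unfold Fh ipF ip2
  rw [Finset.mul_sum, Finset.mul_sum]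
  have h2 : ∀ (a : Fin n) (j k : Fin d) (y : St d l),
      fst L (lf (tr (zt l o) U)) P a j k (rep o y) =
      fi L a (hol (lf U) o (Pp o P y) * plqT U y j k * (hol (lf U) o (Pp o P y))⁻¹) := by
    intro a j k y
    unfold fst
    rw [lf_tr, hol_trans, plz_trans, plz_lf, zt_rep, zero_add]
    rfl
  simp only [h2, hs]
  obtain ⟨W, hW⟩ : ∃ W : Fin n → Fin d → Fin d → St d l → ℝ, W = fun a j k y =>
    fi L a (hol (lf U) o (Pp o P y) * plqT U y j k * (hol (lf U) o (Pp o P y))⁻¹) := ⟨_, rfl⟩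
  have h3 : ∀ a j k y,
    fi L a (hol (lf U) o (Pp o P y) * plqT U y j k * (hol (lf U) o (Pp o P y))⁻¹) =
      W a j k y := fun a j k y => by rw [hW]
  simp only [h3]
  have h4 : ∀ y : St d l, h ^ d * (1 / 2 * ∑ j, ∑ k, ∑ a, f.f a j k (pt h (rep o y)) *
      (b ^ 2 / Real.sqrt (h ^ d) * W a j k y)) =
      ∑ a, ∑ j, ∑ k, b ^ 2 * (1 / 2 * (smpF (Real.sqrt (h ^ d)) h o f a j k y * W a j k y)) := by
    intro y
    rw [sum3, Finset.mul_sum, Finset.mul_sum]
    simp only [Finset.mul_sum]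
    refine Finset.sum_congr rfl fun a _ => Finset.sum_congr rfl fun j _ =>
      Finset.sum_congr rfl fun k _ => ?_
    have e1 : smpF (Real.sqrt (h ^ d)) h o f a j k y =
        Real.sqrt (h ^ d) * f.f a j k (pt h (rep o y)) := rfl
    rw [e1]
    obtain ⟨c, hcc⟩ : ∃ c, c = Real.sqrt (h ^ d) := ⟨_, rfl⟩
    rw [← hcc] at hc hc2 ⊢
    rw [← hc2]
    field_simp
  rw [Finset.sum_congr rfl fun y _ => h4 y, Finset.sum_comm]
  refine Finset.sum_congr rfl fun a _ => ?_
  rw [Finset.sum_comm, Finset.mul_sum, Finset.mul_sum]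
  refine Finset.sum_congr rfl fun j _ => ?_
  rw [Finset.sum_comm, Finset.mul_sum, Finset.mul_sum]
  refine Finset.sum_congr rfl fun k _ => ?_
  rw [Finset.mul_sum, Finset.mul_sum]

end field

end

end Pool.Agent.U322.FL
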