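import Mathlib
import Pool.Agent.U322.FL.Fin

/-!
# Free continuum limit of lattice Yang-Mills: the limit of the characteristic functional
-/

open MeasureTheory Filter Matrix
open scoped ContDiff Topology Matrix.Norms.Frobenius
open Pool.Agent.H906R3.YM Pool.Agent.W793.YM

namespace Pool.Agent.U322.FL

set_option linter.unusedSectionVars false
set_option linter.unusedVariables false

noncomputable section

/-- the scale -/
lemma tendsto_scale : Tendsto (fun h : ℝ => Real.sqrt (Real.sqrt h⁻¹)) (𝓝[>] 0) atTop :=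
  Real.tendsto_sqrt_atTop.comp (Real.tendsto_sqrt_atTop.comp tendsto_inv_nhdsGT_zero)

lemma scale_pow {h : ℝ} (hh : 0 < h) : Real.sqrt (Real.sqrt h⁻¹) ^ 4 = h⁻¹ := by
  rw [show (4 : ℕ) = 2 * 2 by norm_num, pow_mul, Real.sq_sqrt (Real.sqrt_nonneg _),
    Real.sq_sqrt (by positivity)]

/-- the estimates of the powers -/
lemma powers {d : ℕ} (hd : 3 ≤ d) {t b N C1 : ℝ} {K : ℕ} (ht : 1 ≤ t) (hC1 : 0 ≤ C1)
    (hN0 : 0 ≤ N) (hN : N ≤ C1 * t ^ (2 * d)) (hK : t ^ 28 ≤ K) (hK2 : (K : ℝ) ≤ 2 * t ^ 28)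
    (hb : t ^ (60 * d + 85) ≤ b) :
    N / Real.sqrt (Real.sqrt K ^ (d - 2)) + (K : ℝ) ^ (2 * d + 3) * (1 + N) ^ 2 / b ≤
      (C1 + 2 ^ (2 * d + 3) * (1 + C1) ^ 2) / t ∧
    (2 + 2 * Real.sqrt (2 * d)) ^ d / Real.sqrt K ^ (d - 2) * N ^ 2 / K ≤
      (2 + 2 * Real.sqrt (2 * d)) ^ d * C1 ^ 2 / t := by
  have ht0 : 0 < t := by linarith
  have h1 : t ^ 14 ≤ Real.sqrt K := by
    rw [show t ^ 14 = Real.sqrt (t ^ 28) by
      rw [show t ^ 28 = (t ^ 14) ^ 2 by ring, Real.sqrt_sq (by positivity)]]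
    exact Real.sqrt_le_sqrt hK
  have h2 : (t ^ 14) ^ (d - 2) ≤ Real.sqrt K ^ (d - 2) := pow_le_pow_left₀ (by positivity) h1 _
  have h3 : t ^ (7 * (d - 2)) ≤ Real.sqrt (Real.sqrt K ^ (d - 2)) := by
    rw [show t ^ (7 * (d - 2)) = Real.sqrt ((t ^ 14) ^ (d - 2)) by
      rw [show (t ^ 14) ^ (d - 2) = (t ^ (7 * (d - 2))) ^ 2 by
        rw [← pow_mul, ← pow_mul]; congr 1; ring, Real.sqrt_sq (by positivity)]]
    exact Real.sqrt_le_sqrt h2
  have h4 : t ^ (2 * d + 1) ≤ t ^ (7 * (d - 2)) := pow_le_pow_right₀ ht (by omega)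
  have h5 : N / Real.sqrt (Real.sqrt K ^ (d - 2)) ≤ C1 / t := by
    rw [div_le_div_iff₀ (lt_of_lt_of_le (by positivity) h3) ht0]
    calc N * t ≤ C1 * t ^ (2 * d) * t := mul_le_mul_of_nonneg_right hN ht0.le
      _ = C1 * t ^ (2 * d + 1) := by ring
      _ ≤ C1 * Real.sqrt (Real.sqrt K ^ (d - 2)) :=
        mul_le_mul_of_nonneg_left (h4.trans h3) hC1
  have h6 : 1 + N ≤ (1 + C1) * t ^ (2 * d) := by
    have : 1 ≤ t ^ (2 * d) := one_le_pow₀ ht
    nlinarith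
  have h7 : (K : ℝ) ^ (2 * d + 3) * (1 + N) ^ 2 / b ≤ 2 ^ (2 * d + 3) * (1 + C1) ^ 2 / t := by
    have hb0 : 0 < b := lt_of_lt_of_le (by positivity) hb
    rw [div_le_div_iff₀ hb0 ht0]
    have e1 : (K : ℝ) ^ (2 * d + 3) ≤ (2 * t ^ 28) ^ (2 * d + 3) :=
      pow_le_pow_left₀ (Nat.cast_nonneg _) hK2 _
    have e2 : (1 + N) ^ 2 ≤ ((1 + C1) * t ^ (2 * d)) ^ 2 := pow_le_pow_left₀ (by positivity) h6 _
    calc (K : ℝ) ^ (2 * d + 3) * (1 + N) ^ 2 * t ≤
        (2 * t ^ 28) ^ (2 * d + 3) * ((1 + C1) * t ^ (2 * d)) ^ 2 * t := by gcongr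
      _ = 2 ^ (2 * d + 3) * (1 + C1) ^ 2 * t ^ (60 * d + 85) := by
        rw [mul_pow, mul_pow, ← pow_mul, ← pow_mul]
        have : t ^ (60 * d + 85) = t ^ (28 * (2 * d + 3)) * t ^ (2 * d * 2) * t := by
          rw [← pow_add, ← pow_succ]; congr 1; ring
        rw [this]; ring
      _ ≤ _ := mul_le_mul_of_nonneg_left hb (by positivity)
  constructor
  · rw [add_div]; exact add_le_add h5 h7
  · have hK0 : (0 : ℝ) < K := lt_of_lt_of_le (by positivity) hK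
    have hs : 0 < Real.sqrt K ^ (d - 2) := lt_of_lt_of_le (by positivity) h2
    obtain ⟨A, hA⟩ : ∃ A : ℝ, A = (2 + 2 * Real.sqrt (2 * d)) ^ d := ⟨_, rfl⟩
    rw [← hA]
    have hA0 : 0 ≤ A := by rw [hA]; positivity
    have e0 : A / Real.sqrt K ^ (d - 2) * N ^ 2 / K = A * (N ^ 2 / (Real.sqrt K ^ (d - 2) * K)) := by
      field_simp
    rw [e0, mul_div_assoc]
    refine mul_le_mul_of_nonneg_left ?_ hA0
    rw [div_le_div_iff₀ (by positivity) ht0]
    have e1 : N ^ 2 ≤ (C1 * t ^ (2 * d)) ^ 2 := pow_le_pow_left₀ hN0 hN _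
    have e2 : t ^ (4 * d + 1) ≤ (t ^ 14) ^ (d - 2) * t ^ 28 := by
      rw [← pow_mul, ← pow_add]
      exact pow_le_pow_right₀ ht (by omega)
    calc N ^ 2 * t ≤ (C1 * t ^ (2 * d)) ^ 2 * t := mul_le_mul_of_nonneg_right e1 ht0.le
      _ = C1 ^ 2 * t ^ (4 * d + 1) := by
        rw [mul_pow, ← pow_mul]
        have : t ^ (4 * d + 1) = t ^ (2 * d * 2) * t := by rw [← pow_succ]; congr 1; ring
        rw [this]; ring
      _ ≤ C1 ^ 2 * ((t ^ 14) ^ (d - 2) * t ^ 28) := mul_le_mul_of_nonneg_left e2 (by positivity)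
      _ ≤ C1 ^ 2 * (Real.sqrt K ^ (d - 2) * K) := by gcongr

variable {G : Type*} [Group G] [TopologicalSpace G] [IsTopologicalGroup G] [CompactSpace G]
  [SecondCountableTopology G] [MeasurableSpace G] [BorelSpace G] (μ : Measure G)
  [IsProbabilityMeasure μ] [μ.IsMulLeftInvariant] [μ.IsMulRightInvariant] [μ.IsInvInvariant]
  {N n : ℕ} (L : LD G N n) {d : ℕ}

lemma vK_nonneg' {l : ℕ} [NeZero l] (K : ℕ) (f : Fin n → Fm d l) : 0 ≤ vK K f := by
  rw [vK_eq']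
  have := N2_nonneg (fun a => TL K (f a))
  positivity

set_option maxHeartbeats 2000000 in
/-- the characteristic functional -/
theorem fin_lim (hd : 3 ≤ d) (f : TestForm n d) (c0 : ℝ) {ε : ℝ} (hε : 0 < ε) :
    ∀ᶠ h : ℝ in 𝓝[>] 0, ∀ β : ℝ, 1 ≤ β * h ^ (60 * d + 85) →
      ∀ P : (Fin d → ℤ) → List (Fin d × Bool),
      (∀ x, dest 0 (P x) = x ∧ ((P x).length : ℝ) ≤ c0 * (1 + ∑ i, |(x i : ℝ)|)) →
      ∀ᶠ m : ℕ in atTop,
        |EX μ L β (fun U : Ed d (2 * (m + 1)) → G => Real.cos (Phi L β h P f (lf U))) -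
          Real.exp (-(vM f / 2))| ≤ ε ∧
        |EX μ L β (fun U : Ed d (2 * (m + 1)) → G => Real.sin (Phi L β h P f (lf U)))| ≤ ε := by
  obtain ⟨C, hC, hrb⟩ := lattice_rb μ (L := L) hd
  obtain ⟨C1, hC1, hN1⟩ := N1_bound f
  have hcont : ContinuousAt (fun x : ℝ => Real.exp (-(x ^ 2 / 2))) (Real.sqrt (vM f)) :=
    Continuous.continuousAt (by fun_prop)
  obtain ⟨δ, hδ, hδ2⟩ := Metric.continuousAt_iff.1 hcont (ε / 2) (by positivity)
  obtain ⟨R, hR, hvar⟩ := var_lim (n := n) (d := d) (by omega) f (δ := δ / 4) (by positivity)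
  obtain ⟨R1, hR1, hsup⟩ := sup_of_compact f
  obtain ⟨A, hA⟩ : ∃ A : ℝ, A = (2 + 2 * Real.sqrt (2 * d)) ^ d * C1 ^ 2 := ⟨_, rfl⟩
  have hA0 : 0 ≤ A := by rw [hA]; positivity
  obtain ⟨E, hE⟩ : ∃ E : ℝ, E = C1 + 2 ^ (2 * d + 3) * (1 + C1) ^ 2 := ⟨_, rfl⟩
  have hE0 : 0 ≤ E := by rw [hE]; positivity
  obtain ⟨T0, hT0⟩ : ∃ T0 : ℝ, T0 = 1 + (2 * (R + R1) + 2) + |c0| * (1 + d * (R1 + 1)) +
    C * E / (ε / 2) + A / (δ / 4) ^ 2 := ⟨_, rfl⟩
  filter_upwards [hvar, hN1, self_mem_nhdsWithin, tendsto_scale.eventually_ge_atTop T0] with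
    h hvar hN1 hh ht β hβ P hP
  have hh0 : 0 < h := hh
  obtain ⟨t, htd⟩ : ∃ t, t = Real.sqrt (Real.sqrt h⁻¹) := ⟨_, rfl⟩
  have ht4 : t ^ 4 = h⁻¹ := by rw [htd]; exact scale_pow hh0
  rw [← htd] at ht
  have p1 : 0 ≤ |c0| * (1 + d * (R1 + 1)) := by positivity
  have p2 : 0 ≤ C * E / (ε / 2) := by positivity
  have p3 : 0 ≤ A / (δ / 4) ^ 2 := by positivity
  have ht1 : 1 ≤ t := by rw [hT0] at ht; linarith
  have htR : 2 * (R + R1) + 2 ≤ t := by rw [hT0] at ht; linarith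
  have htc : |c0| * (1 + d * (R1 + 1)) ≤ t := by rw [hT0] at ht; linarith
  have htE : C * E / (ε / 2) ≤ t := by rw [hT0] at ht; linarith
  have htA : A / (δ / 4) ^ 2 ≤ t := by rw [hT0] at ht; linarith
  have ht0 : 0 < t := by linarith
  have hth : h * t ^ 4 = 1 := by rw [ht4]; exact mul_inv_cancel₀ hh0.ne'
  -- the coupling
  have hβ0 : 0 < β := by
    by_contra h0
    have : β * h ^ (60 * d + 85) ≤ 0 := mul_nonpos_of_nonpos_of_nonneg (not_lt.1 h0) (by positivity)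
    linarith
  obtain ⟨b, hb⟩ : ∃ b, b = Real.sqrt (Real.sqrt β) := ⟨_, rfl⟩
  have hb0 : 0 ≤ b := by rw [hb]; exact Real.sqrt_nonneg _
  have hb4 : b ^ 4 = β := by
    rw [hb, show (4 : ℕ) = 2 * 2 by norm_num, pow_mul, Real.sq_sqrt (Real.sqrt_nonneg _),
      Real.sq_sqrt hβ0.le]
  have hbt : t ^ (60 * d + 85) ≤ b := by
    have e1 : (t ^ (60 * d + 85)) ^ 4 ≤ b ^ 4 := by
      rw [hb4, ← pow_mul, mul_comm, pow_mul]
      have e2 : (h * t ^ 4) ^ (60 * d + 85) = 1 := by rw [hth, one_pow]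
      rw [mul_pow] at e2
      calc (t ^ 4) ^ (60 * d + 85) ≤ (β * h ^ (60 * d + 85)) * (t ^ 4) ^ (60 * d + 85) :=
            le_mul_of_one_le_left (by positivity) hβ
        _ = β * (h ^ (60 * d + 85) * (t ^ 4) ^ (60 * d + 85)) := by ring
        _ = β := by rw [e2, mul_one]
    exact le_of_pow_le_pow_left₀ (by norm_num) hb0 e1
  have hb1 : 1 ≤ b := (one_le_pow₀ ht1).trans hbt
  -- the scales
  obtain ⟨K, hK⟩ : ∃ K : ℕ, K = ⌈t ^ 28⌉₊ := ⟨_, rfl⟩
  have hK1 : t ^ 28 ≤ K := by rw [hK]; exact Nat.le_ceil _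
  have ht28 : 1 ≤ t ^ 28 := one_le_pow₀ ht1
  have hK2 : (K : ℝ) ≤ 2 * t ^ 28 := by
    have := Nat.ceil_lt_add_one (show 0 ≤ t ^ 28 by positivity)
    rw [← hK] at this
    linarith
  have hK0 : 1 ≤ K := by
    have : (1 : ℝ) ≤ K := ht28.trans hK1
    exact_mod_cast this
  obtain ⟨r, hr⟩ : ∃ r : ℕ, r = (K - 1) / 2 := ⟨_, rfl⟩
  have hr2 : 2 * r < K := by omega
  have hr3 : K ≤ 2 * r + 2 := by omega
  have hr3' : (K : ℝ) ≤ 2 * r + 2 := by exact_mod_cast hr3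
  have hh1 : h ≤ 1 := by
    have : 1 ≤ t ^ 4 := one_le_pow₀ ht1
    nlinarith
  have hhr : R + R1 ≤ h * r := by
    have e1 : h * t ^ 28 = t ^ 24 := by
      rw [show t ^ 28 = t ^ 4 * t ^ 24 by ring, ← mul_assoc, hth, one_mul]
    have e2 : t ≤ t ^ 24 := le_self_pow₀ ht1 (by norm_num)
    have e3 : h * t ^ 28 ≤ h * K := mul_le_mul_of_nonneg_left hK1 hh0.le
    have e4 : h * K ≤ h * (2 * r + 2) := mul_le_mul_of_nonneg_left hr3' hh0.le
    nlinarith
  obtain ⟨o, ho⟩ : ∃ o : Fin d → ℤ, o = fun _ => (K : ℤ) + 2 + r := ⟨_, rfl⟩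
  have hoi : ∀ i, o i = (K : ℤ) + 2 + r := fun i => by rw [ho]
  filter_upwards [Filter.eventually_gt_atTop (3 * K + 5)] with m hm
  have hKm : 3 * K + 5 < 2 * (m + 1) := by omega
  have hmar : Mar (2 * (m + 1)) (r + 2) o := fun i => by
    rw [hoi]
    constructor <;> push_cast <;> omega
  have hmar0 : Mar (2 * (m + 1)) r o := hmar.anti (by omega)
  have hsf : SupF h r f := hsup h hh0 r (by linarith)
  obtain ⟨c, hc⟩ : ∃ c, c = Real.sqrt (h ^ d) := ⟨_, rfl⟩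
  have hc0 : 0 ≤ c := by rw [hc]; exact Real.sqrt_nonneg _
  have hc2 : c ^ 2 = h ^ d := by rw [hc, Real.sq_sqrt (by positivity)]
  have hct : c * t ^ (2 * d) = 1 := by
    have e1 : (c * t ^ (2 * d)) ^ 2 = 1 := by
      rw [mul_pow, hc2, ← pow_mul, show 2 * d * 2 = 4 * d by ring, pow_mul, ← mul_pow, hth, one_pow]
    exact (pow_eq_one_iff_of_nonneg (by positivity) (by norm_num)).1 e1
  obtain ⟨φ, hφ⟩ : ∃ φ : Fin n → Fm d (2 * (m + 1)), φ = smpF c h o f := ⟨_, rfl⟩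
  have hNφ : N1 φ ≤ C1 * t ^ (2 * d) := by
    have e1 := hN1 (2 * (m + 1)) o r c hsf hmar0 hc0 hc2
    rw [← hφ] at e1
    calc N1 φ = (c * N1 φ) * t ^ (2 * d) := by rw [mul_right_comm, hct, one_mul]
      _ ≤ C1 * t ^ (2 * d) := mul_le_mul_of_nonneg_right e1 (by positivity)
  have hN0 : 0 ≤ N1 φ := N1_nonneg φ
  obtain ⟨hp1, hp2⟩ := powers hd ht1 hC1 hN0 hNφ hK1 hK2 hbt
  rw [← hE] at hp1
  rw [← hA] at hp2
  -- the variance
  have hPk : Real.sqrt (N2 (Pks K φ)) ≤ δ / 4 := by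
    have hKr : (0 : ℝ) < K := by exact_mod_cast hK0
    have e1 := N2_Pks hd hK0 (show K ≤ 2 * (m + 1) by omega) φ
    have e2 : N2 (Pks K φ) ≤ A / t := by
      refine le_trans ?_ hp2
      rw [le_div_iff₀ hKr, mul_comm]
      exact e1
    rw [Real.sqrt_le_iff]
    refine ⟨by positivity, e2.trans ?_⟩
    rw [div_le_iff₀ (by positivity)] at htA
    rw [div_le_iff₀ ht0, mul_comm]
    exact htA
  have hv := hvar (2 * (m + 1)) K o r c (by linarith) hmar hc2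
  rw [← hφ] at hv
  have hv2 : |Real.exp (-(vK K φ / 2)) - Real.exp (-(vM f / 2))| < ε / 2 := by
    have e1 : dist (Real.sqrt (vK K φ)) (Real.sqrt (vM f)) < δ := by
      rw [Real.dist_eq]; linarith
    have e2 := hδ2 e1
    rw [Real.dist_eq, Real.sq_sqrt (vK_nonneg' K φ), Real.sq_sqrt (vM_nonneg f)] at e2
    exact e2
  -- the characteristic function
  obtain ⟨h1, h2⟩ := hrb b hb1 (m + 1) K hK0 hKm φ (fun a => by rw [hφ]; exact smpF_asy c h o f a)
    (fun a j k x hx i => by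
      have e1 : f.f a j k (pt h (rep o x)) ≠ 0 := by
        intro h0
        apply hx
        rw [hφ]
        show c * f.f a j k (pt h (rep o x)) = 0
        rw [h0, mul_zero]
      have e2 := hsf a j k _ e1 i
      have e3 : rep o x i = (wv x i : ℤ) - ((K : ℤ) + 2 + r) := by
        unfold rep; rw [hoi]
      rw [e3, abs_le] at e2
      constructor <;> omega)
    o (Pp o P) (fun i => by rw [hoi]; constructor <;> omega)
    (fun a j k y hy => by
      have e1 : f.f a j k (pt h (rep o y)) ≠ 0 := by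
        intro h0
        apply hy
        rw [hφ]
        show c * f.f a j k (pt h (rep o y)) = 0
        rw [h0, mul_zero]
      obtain ⟨q1, q2⟩ := hP (rep o y)
      constructor
      · obtain ⟨r1, hr1⟩ : ∃ r1 : ℕ, r1 = ⌈R1 * t ^ 4⌉₊ := ⟨_, rfl⟩
        have e2 : R1 ≤ h * r1 := by
          have : R1 * t ^ 4 ≤ r1 := by rw [hr1]; exact Nat.le_ceil _
          calc R1 = h * t ^ 4 * R1 := by rw [hth, one_mul]
            _ = h * (R1 * t ^ 4) := by ring
            _ ≤ h * r1 := mul_le_mul_of_nonneg_left this hh0.le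
        have e3 : (r1 : ℝ) ≤ (R1 + 1) * t ^ 4 := by
          have e4 := Nat.ceil_lt_add_one (show 0 ≤ R1 * t ^ 4 by positivity)
          rw [← hr1] at e4
          have : 1 ≤ t ^ 4 := one_le_pow₀ ht1
          nlinarith
        have e5 : ∀ i, |((rep o y i : ℤ) : ℝ)| ≤ (R1 + 1) * t ^ 4 := fun i => by
          have e6 := hsup h hh0 r1 e2 a j k _ e1 i
          have e7 : |((rep o y i : ℤ) : ℝ)| ≤ (r1 : ℝ) := by exact_mod_cast e6
          exact e7.trans e3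
        have e6 : ∑ i, |((rep o y i : ℤ) : ℝ)| ≤ d * ((R1 + 1) * t ^ 4) := by
          refine (Finset.sum_le_sum fun i _ => e5 i).trans (le_of_eq ?_)
          simp
        have e7 : ((Pp o P y).length : ℝ) ≤ K := by
          have s0 : 0 ≤ ∑ i, |((rep o y i : ℤ) : ℝ)| := Finset.sum_nonneg fun _ _ => abs_nonneg _
          have s1 : 1 ≤ t ^ 4 := one_le_pow₀ ht1
          calc ((Pp o P y).length : ℝ) ≤ c0 * (1 + ∑ i, |((rep o y i : ℤ) : ℝ)|) := q2
            _ ≤ |c0| * (1 + ∑ i, |((rep o y i : ℤ) : ℝ)|) :=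
              mul_le_mul_of_nonneg_right (le_abs_self _) (by positivity)
            _ ≤ |c0| * (t ^ 4 + d * ((R1 + 1) * t ^ 4)) := by
              refine mul_le_mul_of_nonneg_left ?_ (abs_nonneg _)
              linarith
            _ = |c0| * (1 + d * (R1 + 1)) * t ^ 4 := by ring
            _ ≤ t * t ^ 4 := mul_le_mul_of_nonneg_right htc (by positivity)
            _ = t ^ 5 := by ring
            _ ≤ t ^ 28 := pow_le_pow_right₀ ht1 (by norm_num)
            _ ≤ K := hK1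
        exact_mod_cast e7
      · have e2 : dest o (Pp o P y) = rep o y + o := by
          have := dest_trans o 0 (P (rep o y))
          rw [zero_add, q1] at this
          exact this
        rw [e2, zt_rep])
  have hCE : C * (E / t) ≤ ε / 2 := by
    rw [div_le_iff₀ (by positivity)] at htE
    rw [← mul_div_assoc, div_le_iff₀ ht0, mul_comm (ε / 2) t]
    exact htE
  have hCp := (mul_le_mul_of_nonneg_left hp1 hC.le).trans hCE
  have h1' := h1.trans hCp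
  have h2' := h2.trans hCp
  have hφ' : φ = smpF (Real.sqrt (h ^ d)) h o f := by rw [hφ, hc]
  constructor
  · have e1 : EX μ L β (fun U : Ed d (2 * (m + 1)) → G => Real.cos (Phi L β h P f (lf U))) =
        EX μ L (b ^ 4) (fun U : Ed d (2 * (m + 1)) → G => Real.cos (b ^ 2 *
          Fh L φ (fun y => hol (lf U) o (Pp o P y)) U)) := by
      rw [← EX_tr μ (zt (2 * (m + 1)) o), hb4]
      congr 1
      funext U
      rw [Phi_eq L hb0 hb4 hh0 P hsf hmar0, ← hφ']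
    rw [e1]
    have e2 := abs_add_le (EX μ L (b ^ 4) (fun U : Ed d (2 * (m + 1)) → G => Real.cos (b ^ 2 *
          Fh L φ (fun y => hol (lf U) o (Pp o P y)) U)) - Real.exp (-(vK K φ / 2)))
      (Real.exp (-(vK K φ / 2)) - Real.exp (-(vM f / 2)))
    rw [sub_add_sub_cancel] at e2
    linarith
  · have e1 : EX μ L β (fun U : Ed d (2 * (m + 1)) → G => Real.sin (Phi L β h P f (lf U))) =
        EX μ L (b ^ 4) (fun U : Ed d (2 * (m + 1)) → G => Real.sin (b ^ 2 *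
          Fh L φ (fun y => hol (lf U) o (Pp o P y)) U)) := by
      rw [← EX_tr μ (zt (2 * (m + 1)) o), hb4]
      congr 1
      funext U
      rw [Phi_eq L hb0 hb4 hh0 P hsf hmar0, ← hφ']
    rw [e1]
    linarith

end

end Pool.Agent.U322.FL
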