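import Mathlib
import Pool.Agent.U322.FL.Hodge

/-!
# Free continuum limit of lattice Yang-Mills: joint laws
-/

open MeasureTheory Filter
open scoped ContDiff Topology ComplexConjugate

namespace Pool.Agent.U322.FL

set_option linter.unusedSectionVars false
set_option linter.unusedVariables false

noncomputable section

variable {n d m : ℕ}

/-- linear combination of forms -/
def lc (t : Fin m → ℝ) (f : Fin m → TestForm n d) : TestForm n d where
  f a j k x := ∑ s, t s * (f s).f a j k x
  smooth a j k := ContDiff.sum fun s _ => contDiff_const.mul ((f s).smooth a j k)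
  compact a j k := sum_compact _ fun s => ((f s).compact a j k).mul_left
  anti a j k x := by
    rw [← Finset.sum_neg_distrib]
    exact Finset.sum_congr rfl fun s _ => by rw [(f s).anti a j k]; ring

lemma FT_cmul {g : Eu d → ℝ} (c : ℝ) (p : Eu d) :
    FT (fun x => c * g x) p = (c : ℂ) * FT g p := by
  unfold FT
  rw [Real.fourier_eq, Real.fourier_eq, ← integral_const_mul]
  refine integral_congr_ae (Eventually.of_forall fun x => ?_)
  simp only [Complex.ofReal_mul, Circle.smul_def, smul_eq_mul]
  ring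

lemma dv1_lc (t : Fin m → ℝ) (f : Fin m → TestForm n d) (a : Fin n) (k : Fin d) (p : Eu d) :
    dv1 (lc t f) a k p = ∑ s, (t s : ℂ) * dv1 (f s) a k p := by
  unfold dv1
  have h1 : ∀ j, FT ((lc t f).f a j k) p = ∑ s, (t s : ℂ) * FT ((f s).f a j k) p := by
    intro j
    have e := FT_sum (f := fun s x => t s * (f s).f a j k x) Finset.univ
      (fun s => contDiff_const.mul ((f s).smooth a j k))
      (fun s => ((f s).compact a j k).mul_left) p
    refine Eq.trans e ?_
    exact Finset.sum_congr rfl fun s _ => FT_cmul _ _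
  simp only [h1, Finset.mul_sum]
  rw [Finset.sum_comm]
  exact Finset.sum_congr rfl fun s _ => Finset.sum_congr rfl fun j _ => by ring

lemma YM_lc (t : Fin m → ℝ) (f : Fin m → TestForm n d) (p : Eu d) :
    YM (lc t f) p = ∑ s, (t s : ℂ) • YM (f s) p := by
  ext q
  rw [WithLp.ofLp_sum, Finset.sum_apply]
  show dv1 (lc t f) q.1 q.2 p / (‖p‖ : ℂ) = ∑ s, (t s : ℂ) * (dv1 (f s) q.1 q.2 p / (‖p‖ : ℂ))
  rw [dv1_lc, Finset.sum_div]
  exact Finset.sum_congr rfl fun s _ => by rw [mul_div_assoc]

/-- covariance of the free Maxwell field -/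
def cvM (f g : TestForm n d) : ℝ :=
  ∫ p : Eu d, (∑ a, ∑ k, (conj (dv1 f a k p) * dv1 g a k p).re) / ‖p‖ ^ 2

lemma inner_YM (f g : TestForm n d) (p : Eu d) : (inner ℂ (YM f p) (YM g p)).re =
    (∑ a, ∑ k, (conj (dv1 f a k p) * dv1 g a k p).re) / ‖p‖ ^ 2 := by
  rw [PiLp.inner_apply, Fintype.sum_prod_type, Complex.re_sum, Finset.sum_div]
  refine Finset.sum_congr rfl fun a _ => ?_
  rw [Complex.re_sum, Finset.sum_div]
  refine Finset.sum_congr rfl fun k _ => ?_
  show (inner ℂ (dv1 f a k p / (‖p‖ : ℂ)) (dv1 g a k p / (‖p‖ : ℂ))).re = _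
  rw [RCLike.inner_apply, map_div₀, Complex.conj_ofReal, div_mul_div_comm, mul_comm (dv1 g a k p),
    ← Complex.ofReal_mul, Complex.div_ofReal_re, pow_two]

lemma inner_int (f g : TestForm n d) : Integrable fun p => (inner ℂ (YM f p) (YM g p)).re := by
  have h1 : Integrable fun p => ‖YM f p‖ * ‖YM g p‖ :=
    (YM_memLp f).norm.integrable_mul (YM_memLp g).norm
  refine h1.mono' ?_ (Eventually.of_forall fun p => ?_)
  · exact Complex.continuous_re.comp_aestronglyMeasurable ((YM_meas f).inner (YM_meas g))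
  · rw [Real.norm_eq_abs]
    exact (Complex.abs_re_le_norm _).trans (norm_inner_le_norm _ _)

lemma vM_lc (t : Fin m → ℝ) (f : Fin m → TestForm n d) :
    vM (lc t f) = ∑ s, ∑ s', t s * t s' * cvM (f s) (f s') := by
  rw [vM_eq]
  have h1 : ∀ p, ‖YM (lc t f) p‖ ^ 2 =
      ∑ s, ∑ s', t s * t s' * (inner ℂ (YM (f s) p) (YM (f s') p)).re := by
    intro p
    have e : ‖YM (lc t f) p‖ ^ 2 = (inner ℂ (YM (lc t f) p) (YM (lc t f) p)).re := by
      rw [← inner_self_eq_norm_sq (𝕜 := ℂ)]
      rfl
    rw [e, YM_lc, sum_inner, Complex.re_sum]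
    refine Finset.sum_congr rfl fun s _ => ?_
    rw [inner_sum, Complex.re_sum]
    refine Finset.sum_congr rfl fun s' _ => ?_
    rw [inner_smul_left, inner_smul_right, Complex.conj_ofReal, ← mul_assoc, ← Complex.ofReal_mul,
      Complex.re_ofReal_mul]
  simp only [h1]
  rw [integral_finsetSum _ fun s _ => integrable_finsetSum _ fun s' _ =>
    (inner_int (f s) (f s')).const_mul _]
  refine Finset.sum_congr rfl fun s _ => ?_
  rw [integral_finsetSum _ fun s' _ => (inner_int (f s) (f s')).const_mul _]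
  refine Finset.sum_congr rfl fun s' _ => ?_
  rw [integral_const_mul]
  unfold cvM
  simp only [inner_YM]

lemma cvM_comm (f g : TestForm n d) : cvM f g = cvM g f := by
  unfold cvM
  refine integral_congr_ae (Eventually.of_forall fun p => ?_)
  simp only
  congr 1
  refine Finset.sum_congr rfl fun a _ => Finset.sum_congr rfl fun k _ => ?_
  simp only [Complex.mul_re, Complex.conj_re, Complex.conj_im]
  ring

/-- the covariance matrix -/
def cM (f : Fin m → TestForm n d) : Matrix (Fin m) (Fin m) ℝ :=
  Matrix.of fun s s' => cvM (f s) (f s')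

lemma dot_cM (t : Fin m → ℝ) (f : Fin m → TestForm n d) :
    dotProduct t (Matrix.mulVec (cM f) t) = vM (lc t f) := by
  rw [vM_lc]
  unfold dotProduct Matrix.mulVec dotProduct
  refine Finset.sum_congr rfl fun s _ => ?_
  simp only
  rw [Finset.mul_sum]
  refine Finset.sum_congr rfl fun s' _ => ?_
  show t s * (cvM (f s) (f s') * t s') = _
  ring

lemma cM_psd (f : Fin m → TestForm n d) : (cM f).PosSemidef := by
  refine Matrix.PosSemidef.of_dotProduct_mulVec_nonneg ?_ fun t => ?_
  · ext s s'
    rw [Matrix.conjTranspose_apply]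
    show star (cvM (f s') (f s)) = cvM (f s) (f s')
    rw [cvM_comm]
    rfl
  · have : star t = t := by funext s; rfl
    rw [this, dot_cM]
    exact vM_nonneg _

end

end Pool.Agent.U322.FL
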