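import Mathlib
import Pool.Agent.U322.FL.Fin2
import Pool.Agent.U322.FL.Joint

/-!
# Free continuum limit of lattice Yang-Mills: convergence in law
-/

open MeasureTheory Filter Matrix
open scoped ContDiff Topology Matrix.Norms.Frobenius
open Pool.Agent.H906R3.YM Pool.Agent.W793.YM

namespace Pool.Agent.U322.FL

set_option linter.unusedSectionVars false
set_option linter.unusedVariables false

noncomputable section

variable {G : Type*} [Group G] [TopologicalSpace G] [IsTopologicalGroup G] [CompactSpace G]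
  [SecondCountableTopology G] [MeasurableSpace G] [BorelSpace G] (μ : Measure G)
  [IsProbabilityMeasure μ] [μ.IsMulLeftInvariant] [μ.IsMulRightInvariant] [μ.IsInvInvariant]
  {N n : ℕ} (L : LD G N n) {d m : ℕ}

lemma plz_cont (x : Fin d → ℤ) (i j : Fin d) : Continuous fun V : Ez d → G => plz V x i j := by
  have h1 : ∀ e : Ez d, Continuous fun V : Ez d → G => V e := fun e => continuous_apply e
  unfold plz
  exact (((h1 _).mul (h1 _)).mul (h1 _).inv).mul (h1 _).inv

lemma fst_cont (P : (Fin d → ℤ) → List (Fin d × Bool)) (a : Fin n) (j k : Fin d)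
    (x : Fin d → ℤ) : Continuous fun V : Ez d → G => fst L V P a j k x :=
  (fi_cont a).comp (((hol_cont _ _).mul (plz_cont x j k)).mul (hol_cont _ _).inv)

/-- the box -/
def box (d r : ℕ) : Finset (Fin d → ℤ) := Finset.Icc (fun _ => -(r : ℤ)) (fun _ => (r : ℤ))

lemma not_box {r : ℕ} {h : ℝ} {f : TestForm n d} (hf : SupF h r f) {x : Fin d → ℤ}
    (hx : x ∉ box d r) (a : Fin n) (j k : Fin d) : f.f a j k (pt h x) = 0 := by
  by_contra h0
  apply hx
  have h1 := hf a j k x h0
  rw [box, Finset.mem_Icc]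
  constructor <;> intro i
  · have := h1 i
    rw [abs_le] at this
    exact this.1
  · have := h1 i
    rw [abs_le] at this
    exact this.2

lemma Phi_fin {β h : ℝ} {P : (Fin d → ℤ) → List (Fin d × Bool)} {f : TestForm n d} {r : ℕ}
    (hf : SupF h r f) (V : Ez d → G) : Phi L β h P f V =
      h ^ d * ∑ x ∈ box d r, 1 / 2 * ∑ j, ∑ k, ∑ a,
        f.f a j k (pt h x) * (Real.sqrt β / Real.sqrt (h ^ d) * fst L V P a j k x) := by
  unfold Phi
  rw [tsum_eq_sum fun x hx => ?_]
  simp only [not_box hf hx, zero_mul, Finset.sum_const_zero, mul_zero]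

lemma Phi_cont {β h : ℝ} (hh : 0 < h) (P : (Fin d → ℤ) → List (Fin d × Bool))
    (f : TestForm n d) : Continuous fun V : Ez d → G => Phi L β h P f V := by
  obtain ⟨R, hR, hsup⟩ := sup_of_compact f
  obtain ⟨r, hr⟩ := exists_nat_ge (R / h)
  have hs : SupF h r f := hsup h hh r (by rwa [div_le_iff₀ hh, mul_comm] at hr)
  simp only [Phi_fin L hs]
  refine continuous_const.mul (continuous_finsetSum _ fun x _ => continuous_const.mul
    (continuous_finsetSum _ fun j _ => continuous_finsetSum _ fun k _ =>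
      continuous_finsetSum _ fun a _ => continuous_const.mul (continuous_const.mul
        (fst_cont L P a j k x))))

lemma Phi_lc {β h : ℝ} (hh : 0 < h) (P : (Fin d → ℤ) → List (Fin d × Bool)) (t : Fin m → ℝ)
    (f : Fin m → TestForm n d) (V : Ez d → G) :
    Phi L β h P (lc t f) V = ∑ s, t s * Phi L β h P (f s) V := by
  have h1 : ∀ s, ∃ R : ℝ, 0 ≤ R ∧ ∀ (h : ℝ), 0 < h → ∀ r : ℕ, R ≤ h * r → SupF h r (f s) :=
    fun s => sup_of_compact (f s)
  choose R hR hsup using h1
  obtain ⟨r, hr⟩ := exists_nat_ge ((∑ s, R s) / h)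
  rw [div_le_iff₀ hh, mul_comm] at hr
  have hs : ∀ s, SupF h r (f s) := fun s => hsup s h hh r
    ((Finset.single_le_sum (fun s _ => hR s) (Finset.mem_univ s)).trans hr)
  have hl : SupF h r (lc t f) := by
    intro a j k z hz
    have hz' : ∑ s, t s * (f s).f a j k (pt h z) ≠ 0 := hz
    obtain ⟨s, _, hs'⟩ := Finset.exists_ne_zero_of_sum_ne_zero hz'
    exact hs s a j k z (right_ne_zero_of_mul hs')
  rw [Phi_fin L hl]
  simp only [Phi_fin L (hs _)]
  have h2 : ∀ x : Fin d → ℤ, 1 / 2 * ∑ j, ∑ k, ∑ a, (lc t f).f a j k (pt h x) *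
      (Real.sqrt β / Real.sqrt (h ^ d) * fst L V P a j k x) =
      ∑ s, t s * (1 / 2 * ∑ j, ∑ k, ∑ a, (f s).f a j k (pt h x) *
      (Real.sqrt β / Real.sqrt (h ^ d) * fst L V P a j k x)) := by
    intro x
    have e1 : ∀ a j k, (lc t f).f a j k (pt h x) = ∑ s, t s * (f s).f a j k (pt h x) :=
      fun _ _ _ => rfl
    simp only [e1, Finset.sum_mul, Finset.mul_sum]
    symm
    rw [Finset.sum_comm]
    refine Finset.sum_congr rfl fun j _ => ?_
    rw [Finset.sum_comm]
    refine Finset.sum_congr rfl fun k _ => ?_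
    rw [Finset.sum_comm]
    exact Finset.sum_congr rfl fun a _ => Finset.sum_congr rfl fun s _ => by ring
  rw [Finset.sum_congr rfl fun x _ => h2 x, Finset.sum_comm, Finset.mul_sum]
  refine Finset.sum_congr rfl fun s _ => ?_
  rw [← Finset.mul_sum]
  ring

/-- infinite volume limits -/
def IVL (β : ℝ) (ν : Measure (Ez d → G)) : Prop :=
  ∃ s : ℕ → ℕ, Tendsto s atTop atTop ∧ ∀ F : (Ez d → G) → ℝ, Continuous F →
    Tendsto (fun j => EX μ L β (fun U : Ed d (2 * (s j + 1)) → G => F (lf U))) atTop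
      (𝓝 (∫ V, F V ∂ν))

/-- the characteristic functional in the infinite volume -/
theorem inf_lim (hd : 3 ≤ d) (f : TestForm n d) (c0 : ℝ) {ε : ℝ} (hε : 0 < ε) :
    ∀ᶠ h : ℝ in 𝓝[>] 0, ∀ β : ℝ, 1 ≤ β * h ^ (60 * d + 85) →
      ∀ P : (Fin d → ℤ) → List (Fin d × Bool),
      (∀ x, dest 0 (P x) = x ∧ ((P x).length : ℝ) ≤ c0 * (1 + ∑ i, |(x i : ℝ)|)) →
      ∀ ν : Measure (Ez d → G), IVL μ L β ν →
        |∫ V, Real.cos (Phi L β h P f V) ∂ν - Real.exp (-(vM f / 2))| ≤ ε ∧
        |∫ V, Real.sin (Phi L β h P f V) ∂ν| ≤ ε := by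
  filter_upwards [fin_lim μ L hd f c0 hε, self_mem_nhdsWithin] with h h1 hh β hβ P hP ν hν
  obtain ⟨s, hs, hlim⟩ := hν
  have h2 := hs.eventually (h1 β hβ P hP)
  have hc := Phi_cont L (β := β) hh P f
  constructor
  · have h3 := hlim _ (Real.continuous_cos.comp hc)
    refine le_of_tendsto (h3.sub_const _).abs ?_
    filter_upwards [h2] with j hj using hj.1
  · have h3 := hlim _ (Real.continuous_sin.comp hc)
    refine le_of_tendsto h3.abs ?_
    filter_upwards [h2] with j hj using hj.2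

/-- a sequence of theories -/
structure Sq (c0 : ℝ) (β h : ℕ → ℝ) (P : ℕ → (Fin d → ℤ) → List (Fin d × Bool))
    (ν : ℕ → Measure (Ez d → G)) : Prop where
  pos : ∀ k, 0 < h k
  lim : Tendsto h atTop (𝓝 0)
  weak : ∀ᶠ k in atTop, 1 ≤ β k * h k ^ (60 * d + 85)
  path : ∀ k x, dest 0 (P k x) = x ∧ ((P k x).length : ℝ) ≤ c0 * (1 + ∑ i, |(x i : ℝ)|)
  prob : ∀ k, IsProbabilityMeasure (ν k)
  inf : ∀ k, IVL μ L (β k) (ν k)

variable {μ L} {c0 : ℝ} {β h : ℕ → ℝ} {P : ℕ → (Fin d → ℤ) → List (Fin d × Bool)}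
    {ν : ℕ → Measure (Ez d → G)}

lemma Sq.char (hd : 3 ≤ d) (S : Sq μ L c0 β h P ν) (f : TestForm n d) :
    Tendsto (fun k => ∫ V, Real.cos (Phi L (β k) (h k) (P k) f V) ∂(ν k)) atTop
      (𝓝 (Real.exp (-(vM f / 2)))) ∧
    Tendsto (fun k => ∫ V, Real.sin (Phi L (β k) (h k) (P k) f V) ∂(ν k)) atTop (𝓝 0) := by
  have hh : Tendsto h atTop (𝓝[>] 0) := tendsto_nhdsWithin_iff.2 ⟨S.lim, Eventually.of_forall S.pos⟩
  have key : ∀ ε : ℝ, 0 < ε → ∀ᶠ k in atTop,
      |∫ V, Real.cos (Phi L (β k) (h k) (P k) f V) ∂(ν k) - Real.exp (-(vM f / 2))| ≤ ε ∧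
        |∫ V, Real.sin (Phi L (β k) (h k) (P k) f V) ∂(ν k)| ≤ ε := by
    intro ε hε
    filter_upwards [hh.eventually (inf_lim μ L hd f c0 hε), S.weak] with k h1 h2
    exact h1 (β k) h2 (P k) (S.path k) (ν k) (S.inf k)
  constructor
  · rw [Metric.tendsto_nhds]
    intro ε hε
    filter_upwards [key (ε / 2) (by positivity)] with k hk
    rw [Real.dist_eq]
    linarith [hk.1]
  · rw [Metric.tendsto_nhds]
    intro ε hε
    filter_upwards [key (ε / 2) (by positivity)] with k hk
    rw [Real.dist_eq, sub_zero]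
    linarith [hk.2]

/-- the vector of smeared fields -/
def vec (L : LD G N n) (β h : ℝ) (P : (Fin d → ℤ) → List (Fin d × Bool))
    (f : Fin m → TestForm n d) (V : Ez d → G) : EuclideanSpace ℝ (Fin m) :=
  WithLp.toLp 2 fun s => Phi L β h P (f s) V

lemma vec_cont {β h : ℝ} (hh : 0 < h) (P : (Fin d → ℤ) → List (Fin d × Bool))
    (f : Fin m → TestForm n d) : Continuous (vec L β h P f) :=
  (PiLp.continuous_toLp 2 _).comp (continuous_pi fun s => Phi_cont L hh P (f s))

/-- convergence of the joint laws -/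
theorem Sq.law (hd : 3 ≤ d) (S : Sq μ L c0 β h P ν) (f : Fin m → TestForm n d)
    (g : BoundedContinuousFunction (EuclideanSpace ℝ (Fin m)) ℝ) :
    Tendsto (fun k => ∫ V, g (vec L (β k) (h k) (P k) f V) ∂(ν k)) atTop
      (𝓝 (∫ y, g y ∂(ProbabilityTheory.multivariateGaussian 0 (cM f)))) := by
  have := S.prob
  have hm : ∀ k, AEMeasurable (vec L (β k) (h k) (P k) f) (ν k) := fun k =>
    (vec_cont (S.pos k) (P k) f).aemeasurable
  obtain ⟨Q, hQ⟩ : ∃ Q : ℕ → ProbabilityMeasure (EuclideanSpace ℝ (Fin m)), ∀ k,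
      (Q k : Measure (EuclideanSpace ℝ (Fin m))) = (ν k).map (vec L (β k) (h k) (P k) f) :=
    ⟨fun k => ⟨(ν k).map (vec L (β k) (h k) (P k) f), Measure.isProbabilityMeasure_map (hm k)⟩,
      fun k => rfl⟩
  obtain ⟨Q0, hQ0⟩ : ∃ Q0 : ProbabilityMeasure (EuclideanSpace ℝ (Fin m)),
      (Q0 : Measure (EuclideanSpace ℝ (Fin m))) =
        ProbabilityTheory.multivariateGaussian 0 (cM f) :=
    ⟨⟨ProbabilityTheory.multivariateGaussian 0 (cM f), inferInstance⟩, rfl⟩
  have h1 : Tendsto Q atTop (𝓝 Q0) := by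
    rw [ProbabilityMeasure.tendsto_iff_tendsto_charFun]
    intro t
    obtain ⟨h2, h3⟩ := S.char hd (lc t f)
    have e1 : charFun (Q0 : Measure (EuclideanSpace ℝ (Fin m))) t =
        ((Real.exp (-(vM (lc t f) / 2)) : ℝ) : ℂ) := by
      rw [hQ0, ProbabilityTheory.charFun_multivariateGaussian (cM_psd f), ← dot_cM]
      simp
    have e2 : ∀ k, charFun (Q k : Measure (EuclideanSpace ℝ (Fin m))) t =
        ((∫ V, Real.cos (Phi L (β k) (h k) (P k) (lc t f) V) ∂(ν k) : ℝ) : ℂ) +
        ((∫ V, Real.sin (Phi L (β k) (h k) (P k) (lc t f) V) ∂(ν k) : ℝ) : ℂ) * Complex.I := by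
      intro k
      have hc := Phi_cont L (β := β k) (S.pos k) (P k) (lc t f)
      rw [hQ, charFun_apply, integral_map (hm k) (by fun_prop)]
      have e3 : ∀ V, Complex.exp ((inner ℝ (vec L (β k) (h k) (P k) f V) t : ℝ) * Complex.I) =
          ((Real.cos (Phi L (β k) (h k) (P k) (lc t f) V) : ℝ) : ℂ) +
          ((Real.sin (Phi L (β k) (h k) (P k) (lc t f) V) : ℝ) : ℂ) * Complex.I := by
        intro V
        have e4 : (inner ℝ (vec L (β k) (h k) (P k) f V) t : ℝ) =
            Phi L (β k) (h k) (P k) (lc t f) V := by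
          rw [PiLp.inner_apply, Phi_lc L (S.pos k)]
          refine Finset.sum_congr rfl fun s _ => ?_
          show t s * Phi L (β k) (h k) (P k) (f s) V = _
          rfl
        rw [e4, Complex.exp_mul_I, Complex.ofReal_cos, Complex.ofReal_sin]
      have i1 : Integrable (fun V =>
          ((Real.cos (Phi L (β k) (h k) (P k) (lc t f) V) : ℝ) : ℂ)) (ν k) :=
        (Complex.continuous_ofReal.comp (Real.continuous_cos.comp hc)).integrable_of_hasCompactSupport
          (HasCompactSupport.of_compactSpace _)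
      have i2 : Integrable (fun V =>
          ((Real.sin (Phi L (β k) (h k) (P k) (lc t f) V) : ℝ) : ℂ) * Complex.I) (ν k) :=
        ((Complex.continuous_ofReal.comp (Real.continuous_sin.comp hc)).mul
          continuous_const).integrable_of_hasCompactSupport (HasCompactSupport.of_compactSpace _)
      simp only [e3]
      rw [integral_add i1 i2, integral_mul_const, integral_complex_ofReal, integral_complex_ofReal]
    rw [e1]
    simp only [e2]
    have h4 := ((Complex.continuous_ofReal.tendsto _).comp h2).add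
      (((Complex.continuous_ofReal.tendsto _).comp h3).mul_const Complex.I)
    simpa using h4
  have h5 := (ProbabilityMeasure.tendsto_iff_forall_integral_tendsto.1 h1) g
  rw [hQ0] at h5
  refine h5.congr fun k => ?_
  rw [hQ, integral_map (hm k) (by fun_prop)]

end

end Pool.Agent.U322.FL
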